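import Pool.Agent.Lib.MP_1a91b9_ntDF.D0

/-!
# MP_1a91b9_nt (the fields unramified outside `2A`): definitions
-/

set_option autoImplicit false

namespace Pool.Agent.Lib.MP_1a91b9_ntRL

open NumberField IsDedekindDomain
open Pool.Agent.Lib.MP_1a91b9_ntDF (Pf cK NK Ext)

/-- The number field `N` is unramified over `K` outside the places which divide `2 A`. -/
def Unr {K : Type} [Field K] [NumberField K] (A : 𝓞 K)
    (N : IntermediateField K (AlgebraicClosure K)) : Prop :=
  ∃ _ : NumberField N, ∀ (v : HeightOneSpectrum (𝓞 K)) (w : HeightOneSpectrum (𝓞 N)),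
    v.asIdeal.map (algebraMap (𝓞 K) (𝓞 N)) ≤ w.asIdeal ^ 2 → 2 * A ∈ v.asIdeal

/-- All the prime elements which divide one of the `e i` divide `2 A`. -/
def Sup {K : Type} [Field K] [NumberField K] {r : ℕ} (A : 𝓞 K) (e : Fin r → 𝓞 K) : Prop :=
  ∀ i (q : 𝓞 K), Prime q → q ∣ e i → q ∣ 2 * A

end Pool.Agent.Lib.MP_1a91b9_ntRL
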