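import Pool.Agent.Lib.MP_1a91b9_ntRL.C0
import Pool.Agent.Lib.MP_1a91b9_ntDF.KA2

/-!
# MP_1a91b9_nt (the fields unramified outside `2A`): unramified
-/

set_option autoImplicit false

namespace Pool.Agent.Lib.MP_1a91b9_ntRL

open NumberField IsDedekindDomain
open Pool.Agent.Lib.MP_1a91b9_ntDF (Pf cK NK Ext a2_char a2_normal)

private theorem C1_fd {K : Type} [Field K] {r : ℕ} (a : Fin r → K) :
    FiniteDimensional K (NK 2 a) := by
  unfold NK
  have hfin : {x : AlgebraicClosure K | ∃ i, x ^ 2 = algebraMap K (AlgebraicClosure K) (a i)}.Finite := by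
    have h1 : {x : AlgebraicClosure K | ∃ i, x ^ 2 = algebraMap K (AlgebraicClosure K) (a i)} =
        ⋃ i, {x : AlgebraicClosure K | x ^ 2 = algebraMap K (AlgebraicClosure K) (a i)} := by
      ext x
      simp
    rw [h1]
    refine Set.finite_iUnion fun i => ?_
    obtain ⟨x₀, hx₀⟩ := IsAlgClosed.exists_pow_nat_eq
      (algebraMap K (AlgebraicClosure K) (a i)) (n := 2) two_pos
    refine (Set.toFinite {x₀, -x₀}).subset fun x hx => ?_
    have h2 : x ^ 2 = x₀ ^ 2 := by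
      rw [hx₀]
      exact hx
    rcases sq_eq_sq_iff_eq_or_eq_neg.1 h2 with h | h
    · exact Or.inl h
    · exact Or.inr h
  have : Finite {x : AlgebraicClosure K | ∃ i, x ^ 2 = algebraMap K (AlgebraicClosure K) (a i)} :=
    hfin
  exact IntermediateField.finiteDimensional_adjoin fun x _ => Algebra.IsIntegral.isIntegral x

/-- A nontrivial element of an inertia group. -/
private theorem C1_ram {K N : Type} [Field K] [NumberField K] [Field N] [NumberField N] [Algebra K N]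
    [IsGalois K N] (v : HeightOneSpectrum (𝓞 K)) (w : HeightOneSpectrum (𝓞 N))
    (h : v.asIdeal.map (algebraMap (𝓞 K) (𝓞 N)) ≤ w.asIdeal ^ 2) :
    w.asIdeal.LiesOver v.asIdeal ∧
      ∃ σ : Gal(N/K), σ ≠ 1 ∧ ∀ x : 𝓞 N, σ • x - x ∈ w.asIdeal := by
  have h1 : v.asIdeal.map (algebraMap (𝓞 K) (𝓞 N)) ≤ w.asIdeal :=
    h.trans (Ideal.pow_le_self two_ne_zero)
  have hle : v.asIdeal ≤ w.asIdeal.under (𝓞 K) := Ideal.map_le_iff_le_comap.1 h1
  have heq : v.asIdeal = w.asIdeal.under (𝓞 K) :=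
    v.isMaximal.eq_of_le (Ideal.IsPrime.ne_top inferInstance) hle
  have hL : w.asIdeal.LiesOver v.asIdeal := ⟨heq⟩
  refine ⟨hL, ?_⟩
  have hfin : Finite (𝓞 K ⧸ v.asIdeal) := Ring.HasFiniteQuotients.finiteQuotient v.ne_bot
  have h2 := Ideal.card_inertia_eq_ramificationIdxIn (G := Gal(N/K)) v.asIdeal w.asIdeal
  rw [Ideal.ramificationIdxIn_eq_ramificationIdx _ w.asIdeal Gal(N/K),
    ← Ideal.ramificationIdx'_eq_ramificationIdx v.asIdeal w.asIdeal v.ne_bot] at h2
  have h3 := (Ideal.ramificationIdx'_ne_one_iff h1).2 h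
  have h4 : w.asIdeal.inertia Gal(N/K) ≠ ⊥ := by
    intro h5
    rw [h5] at h2
    exact h3 (h2.symm.trans Nat.card_unique)
  obtain ⟨σ, hσ⟩ := Subgroup.ne_bot_iff_exists_ne_one.1 h4
  exact ⟨σ.1, fun h5 => hσ (Subtype.ext h5), fun x => σ.2 x⟩

/-- The field generated by the square roots of the `d i` is unramified outside `2 A`. -/
theorem unr_of {K : Type} [Field K] [NumberField K] [IsPrincipalIdealRing (𝓞 K)] {r : ℕ}
    {d : Fin r → 𝓞 K} (hd : ∀ i, d i ≠ 0) {A : 𝓞 K} (h : Sup A d) : Unr A (NK 2 (cK K d)) := by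
  have hfd := C1_fd (cK K d)
  have hgal : IsGalois K (NK 2 (cK K d)) := a2_normal
  have hnf : NumberField (NK 2 (cK K d)) := NumberField.of_module_finite K _
  refine ⟨hnf, fun v w hvw => ?_⟩
  by_contra hA
  have h2v : (2 : 𝓞 K) ∉ v.asIdeal := fun h2 => hA (v.asIdeal.mul_mem_right _ h2)
  have hdv : ∀ i, d i ∉ v.asIdeal := by
    intro i hi
    obtain ⟨q, hq⟩ := (IsPrincipalIdealRing.principal v.asIdeal).principal
    have hq' : v.asIdeal = Ideal.span {q} := hq
    have hq0 : q ≠ 0 := by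
      rintro rfl
      exact v.ne_bot (by rw [hq']; exact Ideal.span_singleton_eq_bot.2 rfl)
    have hqp : Prime q := by
      rw [← Ideal.span_singleton_prime hq0, ← hq']
      exact v.isPrime
    rw [hq', Ideal.mem_span_singleton] at hi hA
    exact hA (h i q hqp hi)
  obtain ⟨hL, σ, hσ1, hσ⟩ := C1_ram v w hvw
  obtain ⟨χ, hR, hχ, hker⟩ := a2_char (IsPrimitiveRoot.neg_one (R := K) 0 (by norm_num)) two_pos
    (a := cK K d) (fun i h0 => hd i (RingOfIntegers.coe_eq_zero_iff.1 h0))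
  obtain ⟨i, hi⟩ : ∃ i, χ i σ ≠ 1 := by
    by_contra hcon
    push Not at hcon
    exact hσ1 (hker σ hcon)
  obtain ⟨x, hx0, hx, hxs⟩ := hR i
  have hneg : ((χ i σ : Kˣ) : K) = -1 := by
    have h1 : ((χ i σ : Kˣ) : K) ^ 2 = 1 := by
      rw [← Units.val_pow_eq_pow_val, hχ, Units.val_one]
    rcases (sq_eq_sq_iff_eq_or_eq_neg (b := (1 : K))).1 (by rw [h1, one_pow]) with h2 | h2
    · exact absurd (Units.ext h2) hi
    · exact h2
  have hxn : σ x = -x := by
    rw [hxs σ, hneg, map_neg, map_one, neg_one_mul]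
  have hxi : IsIntegral ℤ x := by
    apply IsIntegral.of_pow two_pos
    rw [hx]
    exact (RingOfIntegers.isIntegral_coe (d i)).algebraMap
  obtain ⟨y, hy⟩ : ∃ y : 𝓞 (NK 2 (cK K d)), (y : NK 2 (cK K d)) = x := ⟨⟨x, hxi⟩, rfl⟩
  have hy2 : y * y = algebraMap (𝓞 K) (𝓞 (NK 2 (cK K d))) (d i) := by
    apply RingOfIntegers.ext
    refine Eq.trans ?_ (hx : x ^ 2 = _)
    rw [← hy, sq]
    rfl
  have hσy : σ • y = -y := by
    apply RingOfIntegers.ext
    have h5 : σ (y : NK 2 (cK K d)) = -(y : NK 2 (cK K d)) := by rw [hy, hxn]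
    exact h5
  have h5 := hσ y
  rw [hσy] at h5
  have h6 : algebraMap (𝓞 K) (𝓞 (NK 2 (cK K d))) (2 * 2 * d i) ∈ w.asIdeal := by
    have h7 := w.asIdeal.mul_mem_left (-y - y) h5
    have h8 : algebraMap (𝓞 K) (𝓞 (NK 2 (cK K d))) (2 * 2 * d i) = (-y - y) * (-y - y) := by
      rw [map_mul, map_mul, ← hy2, map_ofNat]
      ring
    rwa [h8]
  have h7 : 2 * 2 * d i ∈ v.asIdeal := by
    rw [hL.over]
    exact h6
  rcases v.isPrime.mem_or_mem h7 with h8 | h8
  · rcases v.isPrime.mem_or_mem h8 with h9 | h9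
    · exact h2v h9
    · exact h2v h9
  · exact hdv i h8

end Pool.Agent.Lib.MP_1a91b9_ntRL
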