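import Pool.Agent.Lib.MP_1a91b9_ntRL.C0
import Pool.Agent.Lib.MP_1a91b9_ntDF.KA2

/-!
# MP_1a91b9_nt (the fields unramified outside `2A`): ramified

PLAN (`of_unr`). Let `q` be prime, `q ∣ d i`, `v = (q)`. Write `d i = q * e`, `q ∤ e` as `q ^ 2 ∤ d i` (`Pf 2`). Let `y` in
`N = NK 2 (cK K d)` be a root of `y ^ 2 = d i` (`a2_mem` in `DF/KA2`, import it if it helps), it is integral over `ℤ`: `y` in
`𝓞 N`. Take a maximal ideal `w` of `𝓞 N` over `v` (`Ideal.exists_ideal_over_maximal_of_isIntegral` or the like). `y ^ 2 =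
q * e` is in `w`, so `y ∈ w`, so `q * e = y ^ 2 ∈ w ^ 2`; `e ∉ w` (as `w ∩ 𝓞 K = v`), so `w ^ 2 + (e) = 1` and `q ∈ w ^ 2`:
`v.map ≤ w ^ 2`. So `2 A ∈ v` by `h`, that is, `q ∣ 2 A`.
-/

set_option autoImplicit false

namespace Pool.Agent.Lib.MP_1a91b9_ntRL

open NumberField IsDedekindDomain
open Pool.Agent.Lib.MP_1a91b9_ntDF (Pf cK NK Ext)

/-- If `y ^ 2 = q e` in an extension and `q` does not divide `e`, the prime `q` is ramified. -/
private theorem C2_ram {R S : Type} [CommRing R] [IsDomain R] [CommRing S] [IsDomain S] [Algebra R S]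
    [FaithfulSMul R S] [Algebra.IsIntegral R S] {q e : R} (hq : Prime q)
    (hm : (Ideal.span {q}).IsMaximal) (hqe : ¬ q ∣ e) {Y : S} (hY : Y ^ 2 = algebraMap R S (q * e)) :
    ∃ w : Ideal S, w.IsMaximal ∧ w ≠ ⊥ ∧ (Ideal.span {q}).map (algebraMap R S) ≤ w ^ 2 := by
  have hinj : Function.Injective (algebraMap R S) := FaithfulSMul.algebraMap_injective R S
  obtain ⟨w, hw, hwq⟩ := Ideal.exists_ideal_over_maximal_of_isIntegral (S := S) (Ideal.span {q})
    (by
      rw [(RingHom.injective_iff_ker_eq_bot _).1 hinj]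
      exact bot_le)
  have hmem : ∀ x : R, algebraMap R S x ∈ w ↔ q ∣ x := by
    intro x
    rw [← Ideal.mem_span_singleton, ← hwq, Ideal.mem_comap]
  have hqw : algebraMap R S q ∈ w := (hmem q).2 dvd_rfl
  have hew : algebraMap R S e ∉ w := fun h => hqe ((hmem e).1 h)
  have hYw : Y ∈ w := by
    refine hw.isPrime.mem_of_pow_mem 2 ?_
    rw [hY, map_mul]
    exact Ideal.mul_mem_right _ _ hqw
  have h1 : algebraMap R S q * algebraMap R S e ∈ w ^ 2 := by
    rw [← map_mul, ← hY]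
    exact Ideal.pow_mem_pow hYw 2
  have h2 : w ⊔ Ideal.span {algebraMap R S e} = ⊤ := by
    refine hw.1.2 _ (lt_of_le_of_ne le_sup_left fun h => hew ?_)
    rw [h]
    exact Ideal.mem_sup_right (Ideal.mem_span_singleton_self _)
  have h3 : IsCoprime (w ^ 2) (Ideal.span {algebraMap R S e}) :=
    (Ideal.isCoprime_iff_sup_eq.2 h2).pow_left
  obtain ⟨a, ha, b, hb, hab⟩ := Ideal.isCoprime_iff_exists.1 h3
  obtain ⟨c, hc⟩ := Ideal.mem_span_singleton'.1 hb
  refine ⟨w, hw, ?_, ?_⟩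
  · rintro rfl
    rw [Ideal.mem_bot] at hqw
    exact hq.ne_zero (hinj (by rw [hqw, map_zero]))
  · rw [Ideal.map_span, Set.image_singleton, Ideal.span_le, Set.singleton_subset_iff]
    show algebraMap R S q ∈ w ^ 2
    have e1 : algebraMap R S q = algebraMap R S q * a + c * (algebraMap R S q * algebraMap R S e) := by
      calc algebraMap R S q = algebraMap R S q * (a + b) := by rw [hab, mul_one]
        _ = algebraMap R S q * a + c * (algebraMap R S q * algebraMap R S e) := by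
          rw [← hc]
          ring
    rw [e1]
    exact Ideal.add_mem _ (Ideal.mul_mem_left _ _ ha) (Ideal.mul_mem_left _ _ h1)

/-- The square roots of numbers without square factors are ramified at all the primes which divide them. -/
theorem of_unr {K : Type} [Field K] [NumberField K] {r : ℕ}
    {d : Fin r → 𝓞 K} (hd : ∀ i, Pf 2 (d i)) {A : 𝓞 K} (h : Unr A (NK 2 (cK K d))) : Sup A d := by
  obtain ⟨hN, hunr⟩ := h
  intro i q hq hqd
  obtain ⟨y, hy⟩ := Pool.Agent.Lib.MP_1a91b9_ntDF.a2_mem (p := 2) two_pos (cK K d) i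
  have hyint : IsIntegral ℤ y := by
    refine IsIntegral.of_pow two_pos ?_
    rw [hy]
    exact map_isIntegral_int (algebraMap K (NK 2 (cK K d))) (RingOfIntegers.isIntegral_coe (d i))
  obtain ⟨Y, hY⟩ : ∃ Y : 𝓞 (NK 2 (cK K d)), (Y : NK 2 (cK K d)) = y := ⟨⟨y, hyint⟩, rfl⟩
  obtain ⟨e, he⟩ := hqd
  have hqe : ¬ q ∣ e := by
    rintro ⟨f, hf⟩
    exact hq.not_isUnit (hd i q ⟨f, by rw [he, hf]; ring⟩)
  have hY2 : Y ^ 2 = algebraMap (𝓞 K) (𝓞 (NK 2 (cK K d))) (q * e) := by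
    rw [← he]
    apply RingOfIntegers.ext
    refine (map_pow (algebraMap (𝓞 (NK 2 (cK K d))) (NK 2 (cK K d))) Y 2).trans ?_
    have e1 : algebraMap (𝓞 (NK 2 (cK K d))) (NK 2 (cK K d)) Y = y := hY
    rw [e1, hy]
    rfl
  have hp : (Ideal.span {q} : Ideal (𝓞 K)).IsPrime := (Ideal.span_singleton_prime hq.ne_zero).2 hq
  have hb : (Ideal.span {q} : Ideal (𝓞 K)) ≠ ⊥ := by
    rw [Ne, Ideal.span_singleton_eq_bot]
    exact hq.ne_zero
  obtain ⟨w, hw, hw0, hle⟩ := C2_ram hq (hp.isMaximal hb) hqe hY2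
  have h1 := hunr ⟨Ideal.span {q}, hp, hb⟩ ⟨w, hw.isPrime, hw0⟩ hle
  exact Ideal.mem_span_singleton.1 h1

end Pool.Agent.Lib.MP_1a91b9_ntRL
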