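import Pool.Agent.Lib.MP_1a91b9_ntRL.C0

/-!
# MP_1a91b9_nt (the fields unramified outside `2A`): the tuples

PLAN (`sup_count`). Let `Λ` be a finite set of prime elements which divide `2`, one in each class of associated elements
(a generator for every `v : HeightOneSpectrum (𝓞 K)` which contains `2`; these are finitely many). For `A` let `Λ_A` be
the set of the `λ` in `Λ` with `¬ λ ∣ A`. `R` is the set of all `fun i => ∏ λ ∈ S i, λ`, `S : Fin r → Finset (𝓞 K)` with `S i ⊆ Λ`,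
and `R_A` the set of those with `S i ⊆ Λ_A`.

Every `e` without square factors and with `q ∣ e → q ∣ 2 A` for all the primes `q` is `(∏ λ ∈ S, λ) * d` with exactly one
`S ⊆ Λ_A` and one `d ∣ A`: `S` is the set of the `λ` in `Λ_A` which divide `e`; if a prime `q` divides `d` and not `A` then it
divides `2`, it is associated to a `λ` in `Λ_A`, which divides `e`, so `λ ∈ S` and `λ ^ 2 ∣ e`, impossible; so all the primes which
divide `d` divide `A`, and `d` is squarefree, so `d ∣ A`. Conversely `λ ∣ (∏ λ ∈ S, λ) * d` iff `λ ∈ S` for `λ ∈ Λ_A`, so `S` is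
determined, and `(∏ λ ∈ S, λ) * d` is squarefree (`S`, `d` squarefree and coprime). For the tuples: componentwise. The count of the
set on the left is the sum over `R_A` of the fibres (`Nat.card` of a sigma type / a disjoint union; all the sets are finite:
`d i ∣ A` with finitely many units).
-/

set_option autoImplicit false

namespace Pool.Agent.Lib.MP_1a91b9_ntRL

open NumberField IsDedekindDomain
open Pool.Agent.Lib.MP_1a91b9_ntDF (Pf cK NK Ext)

private theorem C3_rel {O : Type} [CommRing O] [IsDomain O] {p q : O} (hp : Prime p)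
    (hq : ¬ p ∣ q) : IsRelPrime p q :=
  hp.irreducible.isRelPrime_iff_not_dvd.2 hq

/-- A squarefree element whose prime divisors divide `A` divides `A`. -/
private theorem C3_dvd {O : Type} [CommRing O] [IsDomain O] [IsPrincipalIdealRing O] {d A : O}
    (hd : Squarefree d) (h : ∀ q, Prime q → q ∣ d → q ∣ A) : d ∣ A := by
  rcases eq_or_ne A 0 with rfl | hA
  · exact dvd_zero d
  obtain ⟨y, n, hy, hyd, hdy⟩ := exists_squarefree_dvd_pow_of_ne_zero (R := O) (hd.ne_zero)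
  clear hy hyd hdy y n
  induction d using UniqueFactorizationMonoid.induction_on_prime with
  | h₁ => exact absurd rfl hd.ne_zero
  | h₂ x hx => exact hx.dvd
  | h₃ a p ha hp ih =>
    have hsq := squarefree_mul_iff.1 hd
    refine IsRelPrime.mul_dvd hsq.1 (h p hp (dvd_mul_right p a)) ?_
    exact ih hsq.2.2 fun q hq hqa => h q hq (hqa.mul_left p)

section

variable {O : Type} [CommRing O] [IsDomain O] [IsPrincipalIdealRing O]

/-- The set of the prime divisors of `t`, one in each class. -/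
private structure C3_Rep (t : O) (Λ : Finset O) : Prop where
  prime : ∀ l ∈ Λ, Prime l
  dvd : ∀ l ∈ Λ, l ∣ t
  eq : ∀ l ∈ Λ, ∀ l' ∈ Λ, l ∣ l' → l = l'
  ex : ∀ q, Prime q → q ∣ t → ∃ l ∈ Λ, Associated q l

private theorem C3_exRep {t : O} (ht : t ≠ 0) : ∃ Λ : Finset O, C3_Rep t Λ := by
  classical
  let _ := UniqueFactorizationMonoid.strongNormalizationMonoid (α := O)
  refine ⟨(UniqueFactorizationMonoid.normalizedFactors t).toFinset, ?_, ?_, ?_, ?_⟩
  · intro l hl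
    exact UniqueFactorizationMonoid.prime_of_normalized_factor l (Multiset.mem_toFinset.1 hl)
  · intro l hl
    exact UniqueFactorizationMonoid.dvd_of_mem_normalizedFactors (Multiset.mem_toFinset.1 hl)
  · intro l hl l' hl' h
    exact UniqueFactorizationMonoid.normalizedFactors_eq_of_dvd t l (Multiset.mem_toFinset.1 hl) l'
      (Multiset.mem_toFinset.1 hl') h
  · intro q hq hqt
    obtain ⟨l, hl, hql⟩ :=
      UniqueFactorizationMonoid.exists_mem_normalizedFactors_of_dvd ht hq.irreducible hqt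
    exact ⟨l, Multiset.mem_toFinset.2 hl, hql⟩

variable {t A : O} {Λ : Finset O}

private theorem C3_pair (hΛ : C3_Rep t Λ) {S : Finset O} (hS : S ⊆ Λ) :
    (S : Set O).Pairwise (Function.onFun IsRelPrime fun l : O => l) := by
  intro l hl l' hl' hne
  exact C3_rel (hΛ.prime l (hS hl)) fun h => hne (hΛ.eq l (hS hl) l' (hS hl') h)

private theorem C3_ne (hΛ : C3_Rep t Λ) {S : Finset O} (hS : S ⊆ Λ) : ∏ l ∈ S, l ≠ 0 :=
  Finset.prod_ne_zero_iff.2 fun l hl => (hΛ.prime l (hS hl)).ne_zero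

private theorem C3_mem (hΛ : C3_Rep t Λ) {S : Finset O} (hS : S ⊆ Λ) {l : O} (hl : l ∈ Λ)
    (h : l ∣ ∏ l ∈ S, l) : l ∈ S := by
  obtain ⟨l', hl', hd⟩ := ((hΛ.prime l hl).dvd_finsetProd_iff _).1 h
  rw [hΛ.eq l hl l' (hS hl') hd]
  exact hl'

/-- The coordinates: the products are squarefree, and their primes divide `t A`. -/
private theorem C3_fwd (hΛ : C3_Rep t Λ) (hA : Squarefree A) {S : Finset O} (hS : S ⊆ Λ)
    (hSA : ∀ l ∈ S, ¬ l ∣ A) {d : O} (hd : d ∣ A) :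
    Squarefree ((∏ l ∈ S, l) * d) ∧ ∀ q, Prime q → q ∣ (∏ l ∈ S, l) * d → q ∣ t * A := by
  constructor
  · refine squarefree_mul_iff.2 ⟨?_, ?_, hA.squarefree_of_dvd hd⟩
    · exact IsRelPrime.prod_left fun l hl => C3_rel (hΛ.prime l (hS hl)) fun h =>
        hSA l hl (h.trans hd)
    · exact Finset.squarefree_prod_of_pairwise_isCoprime (C3_pair hΛ hS) fun l hl =>
        (hΛ.prime l (hS hl)).squarefree
  · intro q hq h
    rcases hq.dvd_or_dvd h with h | h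
    · obtain ⟨l, hl, hql⟩ := (hq.dvd_finsetProd_iff _).1 h
      exact (hql.trans (hΛ.dvd l (hS hl))).mul_right A
    · exact (h.trans hd).mul_left t

/-- The coordinates: existence. -/
private theorem C3_bwd (hΛ : C3_Rep t Λ) {e : O} (he : Squarefree e)
    (h : ∀ q, Prime q → q ∣ e → q ∣ t * A) :
    ∃ S ⊆ Λ, (∀ l ∈ S, ¬ l ∣ A) ∧ ∃ d, d ∣ A ∧ e = (∏ l ∈ S, l) * d := by
  classical
  have hS : Λ.filter (fun l => ¬ l ∣ A ∧ l ∣ e) ⊆ Λ := Finset.filter_subset _ _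
  refine ⟨Λ.filter (fun l => ¬ l ∣ A ∧ l ∣ e), hS, fun l hl => (Finset.mem_filter.1 hl).2.1, ?_⟩
  obtain ⟨d, hd⟩ : (∏ l ∈ Λ.filter (fun l => ¬ l ∣ A ∧ l ∣ e), l) ∣ e :=
    Finset.prod_dvd_of_isRelPrime (C3_pair hΛ hS) fun l hl => (Finset.mem_filter.1 hl).2.2
  refine ⟨d, C3_dvd (he.squarefree_of_dvd ⟨_, by rw [hd]; ring⟩) ?_, hd⟩
  intro q hq hqd
  have hqe : q ∣ e := by rw [hd]; exact hqd.mul_left _
  rcases hq.dvd_or_dvd (h q hq hqe) with hqt | hqA
  · by_contra hqA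
    obtain ⟨l, hl, hql⟩ := hΛ.ex q hq hqt
    have hlS : l ∈ Λ.filter (fun l => ¬ l ∣ A ∧ l ∣ e) :=
      Finset.mem_filter.2 ⟨hl, fun h1 => hqA (hql.dvd.trans h1), hql.symm.dvd.trans hqe⟩
    have h2 : l * l ∣ e := by
      rw [hd]
      exact mul_dvd_mul (Finset.dvd_prod_of_mem _ hlS) (hql.symm.dvd.trans hqd)
    exact (hΛ.prime l hl).not_isUnit (he l h2)
  · exact hqA

/-- The coordinates: uniqueness. -/
private theorem C3_uniq (hΛ : C3_Rep t Λ) {S S' : Finset O} (hS : S ⊆ Λ)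
    (hSA : ∀ l ∈ S, ¬ l ∣ A) (hS' : S' ⊆ Λ) {d d' : O} (hd' : d' ∣ A)
    (h : (∏ l ∈ S, l) * d = (∏ l ∈ S', l) * d') : S ⊆ S' := by
  intro l hl
  have h1 : l ∣ (∏ l ∈ S', l) * d' := by
    rw [← h]
    exact (Finset.dvd_prod_of_mem _ hl).mul_right d
  rcases (hΛ.prime l (hS hl)).dvd_or_dvd h1 with h2 | h2
  · exact C3_mem hΛ hS' (hS hl) h2
  · exact absurd (h2.trans hd') (hSA l hl)

end

/-- **The tuples without square factors whose primes divide `2 A`** are the multiples of the tuples of divisors of `A`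
by finitely many fixed tuples. -/
theorem sup_count (K : Type) [Field K] [NumberField K] [IsPrincipalIdealRing (𝓞 K)] [Finite (𝓞 K)ˣ]
    (r : ℕ) : ∃ R : Finset (Fin r → 𝓞 K), (∀ ρ ∈ R, ∀ i, ρ i ≠ 0) ∧
      ∀ A : 𝓞 K, Squarefree A → ∃ R' : Finset (Fin r → 𝓞 K), R' ⊆ R ∧
        {e : Fin r → 𝓞 K | (∀ i, Pf 2 (e i)) ∧ Sup A e}.Finite ∧
        ∀ Q : (Fin r → 𝓞 K) → Prop,
          Nat.card {e : Fin r → 𝓞 K // ((∀ i, Pf 2 (e i)) ∧ Sup A e) ∧ Q e} =
            ∑ ρ ∈ R', Nat.card {d : Fin r → 𝓞 K // (∀ i, d i ∣ A) ∧ Q fun i => ρ i * d i} := by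
  classical
  have h2 : (2 : 𝓞 K) ≠ 0 := two_ne_zero
  obtain ⟨Λ, hΛ⟩ := C3_exRep h2
  have hPf : ∀ x : 𝓞 K, Pf 2 x ↔ Squarefree x := fun x => by
    constructor
    · intro h y hy
      exact h y (by rwa [pow_two])
    · intro h y hy
      exact h y (by rwa [← pow_two])
  refine ⟨(Fintype.piFinset fun _ : Fin r => Λ.powerset).image fun S i => ∏ l ∈ S i, l, ?_, ?_⟩
  · intro ρ hρ i
    obtain ⟨S, hS, rfl⟩ := Finset.mem_image.1 hρ
    exact C3_ne hΛ (Finset.mem_powerset.1 (Fintype.mem_piFinset.1 hS i))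
  intro A hA
  have hsub : (Fintype.piFinset fun _ : Fin r => (Λ.filter fun l => ¬ l ∣ A).powerset) ⊆
      Fintype.piFinset fun _ : Fin r => Λ.powerset :=
    Fintype.piFinset_subset _ _ fun _ => Finset.powerset_mono.2 (Finset.filter_subset _ _)
  refine ⟨(Fintype.piFinset fun _ : Fin r => (Λ.filter fun l => ¬ l ∣ A).powerset).image
    fun S i => ∏ l ∈ S i, l, Finset.image_subset_image hsub, ?_⟩
  have hR : ∀ ρ, ρ ∈ (Fintype.piFinset fun _ : Fin r => (Λ.filter fun l => ¬ l ∣ A).powerset).image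
      (fun S i => ∏ l ∈ S i, l) ↔
      ∃ S : Fin r → Finset (𝓞 K), (∀ i, S i ⊆ Λ) ∧ (∀ i, ∀ l ∈ S i, ¬ l ∣ A) ∧
        ρ = fun i => ∏ l ∈ S i, l := by
    intro ρ
    rw [Finset.mem_image]
    constructor
    · rintro ⟨S, hS, rfl⟩
      have h1 := fun i => Finset.mem_powerset.1 (Fintype.mem_piFinset.1 hS i)
      exact ⟨S, fun i l hl => (Finset.mem_filter.1 (h1 i hl)).1,
        fun i l hl => (Finset.mem_filter.1 (h1 i hl)).2, rfl⟩
    · rintro ⟨S, h1, h3, rfl⟩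
      exact ⟨S, Fintype.mem_piFinset.2 fun i => Finset.mem_powerset.2 fun l hl =>
        Finset.mem_filter.2 ⟨h1 i hl, h3 i l hl⟩, rfl⟩
  have hA0 : A ≠ 0 := hA.ne_zero
  have : Fintype (𝓞 K)ˣ := Fintype.ofFinite _
  have : Finite {d : 𝓞 K // d ∣ A} := @Finite.of_fintype _
    (UniqueFactorizationMonoid.fintypeSubtypeDvd A hA0)
  have : Finite {d : Fin r → 𝓞 K // ∀ i, d i ∣ A} :=
    Finite.of_injective (fun d i => (⟨d.1 i, d.2 i⟩ : {d : 𝓞 K // d ∣ A})) fun d d' h =>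
      Subtype.ext (funext fun i => congrArg Subtype.val (congrFun h i))
  have hDQ : ∀ P : (Fin r → 𝓞 K) → Prop, Finite {d : Fin r → 𝓞 K // (∀ i, d i ∣ A) ∧ P d} :=
    fun P => Finite.of_injective
      (fun d => (⟨d.1, d.2.1⟩ : {d : Fin r → 𝓞 K // ∀ i, d i ∣ A})) fun d d' h =>
        Subtype.ext (congrArg (fun z => z.1) h)
  have hfwd : ∀ ρ d : Fin r → 𝓞 K, ρ ∈ (Fintype.piFinset fun _ : Fin r =>
      (Λ.filter fun l => ¬ l ∣ A).powerset).image (fun S i => ∏ l ∈ S i, l) → (∀ i, d i ∣ A) →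
      (∀ i, Pf 2 (ρ i * d i)) ∧ Sup A fun i => ρ i * d i := by
    intro ρ d hρ hd
    obtain ⟨S, h1, h3, rfl⟩ := (hR _).1 hρ
    exact ⟨fun i => (hPf _).2 (C3_fwd hΛ hA (h1 i) (h3 i) (hd i)).1,
      fun i q hq hqd => (C3_fwd hΛ hA (h1 i) (h3 i) (hd i)).2 q hq hqd⟩
  -- the bijection
  have key : ∀ Q : (Fin r → 𝓞 K) → Prop, ∃ f : (Σ ρ : {ρ // ρ ∈ (Fintype.piFinset fun _ : Fin r =>
      (Λ.filter fun l => ¬ l ∣ A).powerset).image (fun S i => ∏ l ∈ S i, l)},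
      {d : Fin r → 𝓞 K // (∀ i, d i ∣ A) ∧ Q fun i => ρ.1 i * d i}) →
      {e : Fin r → 𝓞 K // ((∀ i, Pf 2 (e i)) ∧ Sup A e) ∧ Q e}, Function.Bijective f := by
    intro Q
    refine ⟨fun x => ⟨fun i => x.1.1 i * x.2.1 i, hfwd _ _ x.1.2 x.2.2.1, x.2.2.2⟩, ?_, ?_⟩
    · rintro ⟨⟨ρ, hρ⟩, ⟨d, hd, hQ⟩⟩ ⟨⟨ρ', hρ'⟩, ⟨d', hd', hQ'⟩⟩ h
      obtain ⟨S, h1, h3, h4⟩ := (hR _).1 hρ
      obtain ⟨S', h1', h3', h4'⟩ := (hR _).1 hρ'
      have h5 : ∀ i, ρ i * d i = ρ' i * d' i := fun i => congrFun (congrArg Subtype.val h) i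
      have h6 : S = S' := by
        funext i
        have h7 := h5 i
        rw [h4, h4'] at h7
        exact Finset.Subset.antisymm (C3_uniq hΛ (h1 i) (h3 i) (h1' i) (hd' i) h7)
          (C3_uniq hΛ (h1' i) (h3' i) (h1 i) (hd i) h7.symm)
      have h8 : ρ = ρ' := by rw [h4, h4', h6]
      subst h8
      have h9 : d = d' := by
        funext i
        refine mul_left_cancel₀ ?_ (h5 i)
        rw [h4]
        exact C3_ne hΛ (h1 i)
      subst h9
      rfl
    · rintro ⟨e, ⟨he, hs⟩, hQ⟩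
      choose S h1 h3 d hd hed using fun i => C3_bwd (A := A) hΛ ((hPf _).1 (he i)) (hs i)
      have h4 : (fun i => (∏ l ∈ S i, l) * d i) = e := funext fun i => (hed i).symm
      refine ⟨⟨⟨fun i => ∏ l ∈ S i, l, (hR _).2 ⟨S, h1, h3, rfl⟩⟩, ⟨d, hd, ?_⟩⟩, ?_⟩
      · change Q fun i => (∏ l ∈ S i, l) * d i
        rw [h4]
        exact hQ
      · exact Subtype.ext h4
  constructor
  · obtain ⟨f, hf⟩ := key fun _ => True
    have : ∀ ρ : {ρ // ρ ∈ (Fintype.piFinset fun _ : Fin r =>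
      (Λ.filter fun l => ¬ l ∣ A).powerset).image (fun S i => ∏ l ∈ S i, l)},
      Finite {d : Fin r → 𝓞 K // (∀ i, d i ∣ A) ∧ True} := fun ρ => hDQ _
    have : Finite {e : Fin r → 𝓞 K // ((∀ i, Pf 2 (e i)) ∧ Sup A e) ∧ True} :=
      Finite.of_surjective f hf.2
    refine Set.Finite.subset (Set.finite_range fun e : {e : Fin r → 𝓞 K //
      ((∀ i, Pf 2 (e i)) ∧ Sup A e) ∧ True} => e.1) ?_
    intro e he
    exact ⟨⟨e, he, trivial⟩, rfl⟩
  · intro Q
    obtain ⟨f, hf⟩ := key Q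
    have : ∀ ρ : {ρ // ρ ∈ (Fintype.piFinset fun _ : Fin r =>
      (Λ.filter fun l => ¬ l ∣ A).powerset).image (fun S i => ∏ l ∈ S i, l)},
      Finite {d : Fin r → 𝓞 K // (∀ i, d i ∣ A) ∧ Q fun i => ρ.1 i * d i} := fun ρ => hDQ _
    rw [← Nat.card_congr (Equiv.ofBijective f hf), Nat.card_sigma]
    exact Finset.sum_coe_sort _ fun ρ : Fin r → 𝓞 K =>
      Nat.card {d : Fin r → 𝓞 K // (∀ i, d i ∣ A) ∧ Q fun i => ρ i * d i}

end Pool.Agent.Lib.MP_1a91b9_ntRL
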