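import Pool.Agent.Lib.MP_1a91b9_ntDF.D1

/-!
# MP_1a91b9_nt (the fields unramified outside `2A`): the property of the fields
-/

set_option autoImplicit false

namespace Pool.Agent.Lib.MP_1a91b9_ntRL

open NumberField IsDedekindDomain
open Pool.Agent.Lib.MP_1a91b9_ntDF (RamOK BSD0 RelBSD)

/-- The L-series of `W` has an entire continuation which is not zero at `1`. -/
def LNonzero {F : Type} [Field F] [NumberField F] (W : WeierstrassCurve F) : Prop :=
  ∃ h : ℂ → ℂ, Differentiable ℂ h ∧ (∀ s : ℂ, 3 / 2 < s.re → h s = W.LSeries s) ∧ h 1 ≠ 0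

/-- **The property `Z` of the curve `V` over `F`.** -/
def PropZ (K : Type) [Field K] [NumberField K] {F : Type} [Field F] [NumberField F] [Algebra K F]
    (V : WeierstrassCurve F) : Prop :=
  LNonzero V ∧ Finite V.toAffine.Point ∧ ∃ S : Finset ℕ, ∀ (q : ℕ) [Fact q.Prime], q ∉ S →
    ∀ (k : ℕ) (L M : Type) [Field L] [NumberField L] [Field M] [NumberField M]
      [Algebra F L] [Algebra L M] [Algebra F M] [IsScalarTower F L M] [IsGalois F M],
      Module.finrank F M = q ^ k → RamOK K V q L →
    ∀ (N : Type) [Field N] [NumberField N] [Algebra N L] (W : WeierstrassCurve N)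
      (C : WeierstrassCurve.VariableChange L), C • W.baseChange L = V.baseChange L → BSD0 q W

/-- The twist of `E` by the square root of `e`, over `F`. -/
def tw {K : Type} [Field K] (E : WeierstrassCurve K) (F : Type) [Field F] [Algebra K F] (e : K) :
    WeierstrassCurve F :=
  ⟨0, algebraMap K F (E.a₂ * e), 0, algebraMap K F (E.a₄ * e ^ 2), 0⟩

open Classical in
/-- The property (A) of `F' / F` for the curve `E` over `K`. -/
def NoNewPoints {K : Type} [Field K] (E : WeierstrassCurve K) (F F' : Type) [Field F] [Algebra K F]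
    [Field F'] [NumberField F'] [Algebra F F'] : Prop :=
  (∀ x' y' : F', ((E.baseChange F).baseChange F').toAffine.Equation x' y' →
    ∃ x y : F, algebraMap F F' x = x' ∧ algebraMap F F' y = y') ∧
  (Module.finrank K F = 1 → E = ⟨0, 4, 0, 2, 0⟩ →
    (∃ h : ℂ → ℂ, Differentiable ℂ h ∧
      (∀ s : ℂ, 3 / 2 < s.re → h s = ((E.baseChange F).baseChange F').LSeries s) ∧
      analyticOrderAt h 1 = 2) ∧
    Module.finrank ℤ ((E.baseChange F).baseChange F').toAffine.Point = 2)

/-- The property `R` of `e` in `K`. -/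
def PropR {K : Type} [Field K] [NumberField K] (E : WeierstrassCurve K) (F : Type) [Field F]
    [NumberField F] [Algebra K F] (e : K) : Prop :=
  PropZ K (tw E F e) ∧
  ∃ S : Finset ℕ, ∀ (q : ℕ) [Fact q.Prime], q ∉ S →
    ∀ (k : ℕ) (L M : Type) [Field L] [NumberField L] [Field M] [NumberField M]
      [Algebra F L] [Algebra L M] [Algebra F M] [IsScalarTower F L M] [IsGalois F M],
      Module.finrank F M = q ^ k → RamOK K (tw E F e) q L →
    ∀ (L' : Type) [Field L'] [NumberField L'] [Algebra L L'] (y : L'),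
      y ^ 2 = algebraMap L L' (algebraMap F L (algebraMap K F e)) →
      IntermediateField.adjoin L {y} = ⊤ →
      RelBSD q ((E.baseChange F).baseChange L) (((E.baseChange F).baseChange L).baseChange L')

/-- **The property `M` of the extension `N` of `K`**. -/
def PropM {K : Type} [Field K] [NumberField K] (E : WeierstrassCurve K) (F : Type) [Field F]
    [NumberField F] [Algebra K F] (N : Type) [Field N] [Algebra K N] : Prop :=
  ∀ (M : Type) [Field M] [NumberField M] [Algebra K M] [Algebra F M] [IsScalarTower K F M]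
    [Algebra N M] [IsScalarTower K N M],
    IntermediateField.adjoin F (Set.range (algebraMap N M)) = ⊤ →
    Module.finrank F M = Module.finrank K N ∧
    ∀ (F' : Type) [Field F'] [NumberField F'] [Algebra K F'] [Algebra F F'] [IsScalarTower K F F']
      [Algebra F' M] [IsScalarTower F F' M],
      NoNewPoints E F F' ∧
      (∃ g : ℂ → ℂ, Differentiable ℂ g ∧ g 1 ≠ 0 ∧ ∀ s : ℂ, 3 / 2 < s.re →
        (E.baseChange F').LSeries s = (E.baseChange F).LSeries s * g s) ∧
      (LNonzero (E.baseChange F) ∨ (Module.finrank K F = 1 ∧ E = ⟨0, 0, 0, 1, 0⟩) →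
        PropZ K (E.baseChange F')) ∧
      (∀ (F'' : Type) [Field F''] [NumberField F''] [Algebra F F''] [Algebra F' F'']
        [IsScalarTower F F' F''] [Algebra F'' M] [IsScalarTower F' F'' M],
        Module.finrank F' F'' ≠ 1 →
        ∃ S : Finset ℕ, ∀ (q : ℕ) [Fact q.Prime], q ∉ S →
          RelBSD q (E.baseChange F') ((E.baseChange F').baseChange F'')) ∧
      ∀ e : K, (∃ x : N, x ^ 2 = algebraMap K N e) → (¬ ∃ y : F', y ^ 2 = algebraMap K F' e) →
        PropR E F' e

open Classical in
/-- The constant `c`. -/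
noncomputable def cst (K F : Type) [Field K] [NumberField K] [Field F] : ℝ :=
  if Prime (2 : 𝓞 K) then (if ∃ x : F, x ^ 2 = -1 then
      √((∏' i : ℕ, (1 + 1 / (2 : ℝ) ^ (2 * i + 1))⁻¹) / 2) else
      ∏' i : ℕ, (1 + 1 / (2 : ℝ) ^ (2 * i + 1))⁻¹) else
    if Squarefree (2 : 𝓞 K) then ∏' i : ℕ, (1 - 1 / (2 : ℝ) ^ (i + 1)) else
    ∏' i : ℕ, (1 + 1 / (2 : ℝ) ^ (i + 1))⁻¹

end Pool.Agent.Lib.MP_1a91b9_ntRL
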