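import Pool.Agent.Lib.MP_1a91b9_ntRL.D0
import Pool.Agent.Lib.MP_1a91b9_ntDF.D2
import Pool.Agent.Lib.MP_1a91b9_ntJ.KS2
import Pool.Agent.Lib.MP_1a91b9_ntQT.B1

/-!
# MP_1a91b9_nt (the fields unramified outside `2A`): the property of the field from the property of the tuple
-/

set_option autoImplicit false

namespace Pool.Agent.Lib.MP_1a91b9_ntRL

open NumberField IsDedekindDomain
open Pool.Agent.Lib.MP_1a91b9_ntDF (NK RamOK BSD0 RelBSD)
open Pool.Agent.Lib.MP_1a91b9_ntJ (TowP)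

/-- The towers property in the language of `BSD0` (the first two parts: take a prime number `q` outside `S`,
`k = 0`, `N = L = M = F`, `W = V`). -/
theorem propZ_of {K : Type} [Field K] [NumberField K] {F : Type} [Field F] [NumberField F]
    [Algebra K F] {V : WeierstrassCurve F} (h : TowP K V) : PropZ K V := by
  obtain ⟨S, hS⟩ := h
  obtain ⟨q, hq1, hq⟩ := Nat.exists_infinite_primes (S.sup id + 1)
  have hqS : q ∉ S := fun h => by
    have h1 : id q ≤ S.sup id := Finset.le_sup h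
    rw [id] at h1
    omega
  have _ : Fact q.Prime := ⟨hq⟩
  obtain ⟨g, g1, g2, g3, -, -, -, g7, -⟩ := hS q hqS 0 F F F
    (by rw [pow_zero, Module.finrank_self]) (fun v w hvw => by
      exfalso
      have h0 : v.asIdeal ≤ w.asIdeal ^ 2 := fun x hx => hvw (Ideal.mem_map_of_mem _ hx)
      have h1 : v.asIdeal = w.asIdeal :=
        v.isMaximal.eq_of_le w.isPrime.ne_top (h0.trans (Ideal.pow_le_self two_ne_zero))
      rw [h1] at h0
      exact absurd (Ideal.pow_lt_self w.asIdeal w.ne_bot w.isPrime.ne_top 2 le_rfl)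
        (not_lt_of_ge h0)) V 1 (by rw [one_smul])
  exact ⟨⟨g, g1, g2, g3⟩, g7, S, fun q _ hq k L M _ _ _ _ _ _ _ _ _ hM hR N _ _ _ W C hC =>
    hS q hq k N L M hM hR W C hC⟩

/-- From the L-series to the towers (`ks_star` with `d = 1`). -/
theorem z_two (K : Type) [Field K] [NumberField K] (hK : Module.finrank ℚ K = 2)
    (E : WeierstrassCurve K) (hE : E.a₁ = 0 ∧ E.a₃ = 0 ∧ E.a₆ = 0) (hΔ : E.Δ ≠ 0) (j D : ℤ)
    (hjD : (j, D) ∈ [(0, -3), (54000, -3), (-12288000, -3), (1728, -4), (287496, -4), (-3375, -7),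
      (16581375, -7), (8000, -8), (-32768, -11), (-884736, -19), (-884736000, -43),
      (-147197952000, -67), (-262537412640768000, -163)])
    (hj : E.c₄ ^ 3 = j * E.Δ) (hD : ∃ s : K, s ^ 2 = D)
    (l : ℕ) (hl : l = 2 ∨ l = 4 ∧ ∃ i : K, i ^ 2 = -1)
    (F : Type) [Field F] [NumberField F] [Algebra K F]
    (hF : IntermediateField.adjoin K {x : F | ∃ c : K, x ^ l = algebraMap K F c} = ⊤)
    (h : LNonzero (E.baseChange F)) : PropZ K (E.baseChange F) := by
  obtain ⟨a, b, rfl⟩ : ∃ a b : K, E = Pool.Agent.Lib.MP_1a91b9_ntL.crv a b :=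
    ⟨E.a₂, E.a₄, WeierstrassCurve.ext hE.1 rfl hE.2.1 rfl hE.2.2⟩
  obtain ⟨s, hs⟩ := hD
  have hW : Pool.Agent.Lib.MP_1a91b9_ntY.CMK (Pool.Agent.Lib.MP_1a91b9_ntL.crv a b) :=
    ⟨hΔ, j, D, s, hjD, hs, hj⟩
  have e : (Pool.Agent.Lib.MP_1a91b9_ntW.J.twd (Pool.Agent.Lib.MP_1a91b9_ntL.crv a b)
      (((1 : 𝓞 K) : 𝓞 K) : K)).map (algebraMap K F) =
      (Pool.Agent.Lib.MP_1a91b9_ntL.crv a b).baseChange F := by
    rw [Pool.Agent.Lib.MP_1a91b9_ntW.J.twd_crv]
    have e1 : ((1 : 𝓞 K) : K) = 1 := rfl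
    rw [e1, one_mul, one_pow, one_mul]
    rfl
  have h1 := Pool.Agent.Lib.MP_1a91b9_ntJ.ks_star (K := K) (F := F) hl hF hK hW
    (Pool.Agent.Lib.MP_1a91b9_ntJ.pt2_crv a b) (d := 1) one_ne_zero (by rw [e]; exact h)
  rw [e] at h1
  exact propZ_of h1

/-- The intermediate fields are generated over `K` by roots. -/
private theorem D1_gen {K : Type} [Field K] {F : Type} [Field F] [Algebra K F] {l : ℕ}
    (hF : IntermediateField.adjoin K {x : F | ∃ c : K, x ^ l = algebraMap K F c} = ⊤)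
    (F' : Type) [Field F'] [Algebra K F'] [Algebra F F'] [IsScalarTower K F F'] (S : Set F')
    (hS : ∀ y ∈ S, ∃ c : K, y ^ l = algebraMap K F' c) (h : IntermediateField.adjoin F S = ⊤) :
    IntermediateField.adjoin K {x : F' | ∃ c : K, x ^ l = algebraMap K F' c} = ⊤ := by
  obtain ⟨A, hA⟩ : ∃ A : IntermediateField K F', A =
      IntermediateField.adjoin K {x : F' | ∃ c : K, x ^ l = algebraMap K F' c} := ⟨_, rfl⟩
  rw [← hA, eq_top_iff]
  have h1 : ∀ z : F, algebraMap F F' z ∈ A := by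
    intro z
    have hz : z ∈ IntermediateField.adjoin K {x : F | ∃ c : K, x ^ l = algebraMap K F c} := by
      rw [hF]
      trivial
    refine IntermediateField.adjoin_induction (F := K) (p := fun z _ => algebraMap F F' z ∈ A)
      ?_ ?_ ?_ ?_ ?_ hz
    · rintro x ⟨c, hc⟩
      rw [hA]
      refine IntermediateField.subset_adjoin K _ ⟨c, ?_⟩
      rw [← map_pow, hc, ← IsScalarTower.algebraMap_apply]
    · intro c
      rw [← IsScalarTower.algebraMap_apply K F F']
      exact A.algebraMap_mem c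
    · intro x y _ _ hx hy
      rw [map_add]
      exact A.add_mem hx hy
    · intro x _ hx
      rw [map_inv₀]
      exact A.inv_mem hx
    · intro x y _ _ hx hy
      rw [map_mul]
      exact A.mul_mem hx hy
  intro z _
  have hz : z ∈ IntermediateField.adjoin F S := by
    rw [h]
    trivial
  refine IntermediateField.adjoin_induction (F := F) (p := fun z _ => z ∈ A)
    ?_ ?_ ?_ ?_ ?_ hz
  · intro y hy
    rw [hA]
    exact IntermediateField.subset_adjoin K _ (hS y hy)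
  · exact h1
  · intro x y _ _ hx hy
    exact A.add_mem hx hy
  · intro x _ hx
    exact A.inv_mem hx
  · intro x y _ _ hx hy
    exact A.mul_mem hx hy

/-- The fields between `F` and `F(√d₁, …, √d_r)` are generated over `K` by roots. -/
private theorem D1_inter {K : Type} [Field K] [NumberField K] (l : ℕ) (hl : l = 2 ∨ l = 4)
    (F : Type) [Field F] [NumberField F] [Algebra K F]
    (hF : IntermediateField.adjoin K {x : F | ∃ c : K, x ^ l = algebraMap K F c} = ⊤) {r : ℕ}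
    {d : Fin r → K} (hd : ∀ i, d i ≠ 0) (M : Type) [Field M] [NumberField M] [Algebra K M]
    [Algebra F M] [IsScalarTower K F M] [Algebra (NK 2 d) M] [IsScalarTower K (NK 2 d) M]
    (hM : IntermediateField.adjoin F (Set.range (algebraMap (NK 2 d) M)) = ⊤)
    (F' : Type) [Field F'] [NumberField F'] [Algebra K F'] [Algebra F F'] [IsScalarTower K F F']
    [Algebra F' M] [IsScalarTower F F' M] :
    IntermediateField.adjoin K {x : F' | ∃ c : K, x ^ l = algebraMap K F' c} = ⊤ := by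
  have hζ : IsPrimitiveRoot (-1 : K) 2 := IsPrimitiveRoot.neg_one 0 (by norm_num)
  obtain ⟨-, -, -, y, hy⟩ := Pool.Agent.Lib.MP_1a91b9_ntDF.nk_kum hζ hd
  obtain ⟨h1, h2⟩ := Pool.Agent.Lib.MP_1a91b9_ntDF.kum_push hy hM
  have hx : Pool.Agent.Lib.MP_1a91b9_ntMQ.MQx (fun i => algebraMap K F (d i))
      (fun i => algebraMap (NK 2 d) M (y i)) Finset.univ := by
    refine ⟨fun i _ => h1 i, ?_⟩
    rw [Finset.coe_univ, Set.image_univ]
    exact h2
  have h3 := hx.inter (F' := F') (fun i _ => (map_ne_zero _).2 (hd i))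
  refine D1_gen hF F' _ ?_ h3
  rintro z ⟨J, -, hz⟩
  rw [← map_prod, ← IsScalarTower.algebraMap_apply] at hz
  rcases hl with rfl | rfl
  · exact ⟨_, hz⟩
  · refine ⟨(∏ i ∈ J, d i) ^ 2, ?_⟩
    rw [map_pow, ← hz]
    ring

private theorem D1_mul {F F' : Type} [Field F] [NumberField F] [Field F'] [NumberField F']
    {W : WeierstrassCurve F} {W' : WeierstrassCurve F'} (hL : LNonzero W)
    (h : ∃ g : ℂ → ℂ, Differentiable ℂ g ∧ g 1 ≠ 0 ∧ ∀ s : ℂ, 3 / 2 < s.re →
      W'.LSeries s = W.LSeries s * g s) : LNonzero W' := by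
  obtain ⟨f, hf, hfs, hf1⟩ := hL
  obtain ⟨g, hg, hg1, hgs⟩ := h
  refine ⟨fun s => f s * g s, hf.mul hg, fun s hs => ?_, mul_ne_zero hf1 hg1⟩
  show f s * g s = _
  rw [hgs s hs, hfs s hs]

/-- The curve `y² = x³ + x` over `F = K`. -/
private theorem D1_one {K : Type} [Field K] [NumberField K] (hK : Module.finrank ℚ K = 2)
    {E : WeierstrassCurve K} (hE : E = ⟨0, 0, 0, 1, 0⟩) {j D : ℤ}
    (hjD : (j, D) ∈ [(0, -3), (54000, -3), (-12288000, -3), (1728, -4), (287496, -4), (-3375, -7),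
      (16581375, -7), (8000, -8), (-32768, -11), (-884736, -19), (-884736000, -43),
      (-147197952000, -67), (-262537412640768000, -163)])
    (hj : E.c₄ ^ 3 = j * E.Δ) (hD : ∃ s : K, s ^ 2 = D)
    (F : Type) [Field F] [NumberField F] [Algebra K F] (hF : Module.finrank K F = 1) :
    LNonzero (E.baseChange F) := by
  subst hE
  have hjv : ((j : ℤ) : K) = ((1728 : ℤ) : K) := by
    have h1 : (64 : K) ≠ 0 := by norm_num
    refine mul_left_cancel₀ h1 ?_
    simp only [WeierstrassCurve.c₄, WeierstrassCurve.Δ, WeierstrassCurve.b₂, WeierstrassCurve.b₄,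
      WeierstrassCurve.b₆, WeierstrassCurve.b₈] at hj
    push_cast
    linear_combination hj
  have hj1 : j = 1728 := by exact_mod_cast hjv
  have hD1 : D = -4 := by
    subst hj1
    simp only [List.mem_cons, Prod.mk.injEq, List.not_mem_nil, or_false] at hjD
    omega
  obtain ⟨s, hs⟩ := hD
  have hi0 : (s / 2) ^ 2 = -1 := by
    rw [div_pow, hs, hD1]
    norm_num
  have hi : (algebraMap K F (s / 2)) ^ 2 = -1 := by
    rw [← map_pow, hi0, map_neg, map_one]
  have hF2 : Module.finrank ℚ F = 2 := by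
    rw [← Module.finrank_mul_finrank ℚ K F, hF, hK]
  obtain ⟨h1, -⟩ := Pool.Agent.Lib.MP_1a91b9_ntQT.b1 hF2 hi
  have e1 : (⟨0, 0, 0, 1, 0⟩ : WeierstrassCurve K).baseChange F = ⟨0, 0, 0, 1, 0⟩ :=
    WeierstrassCurve.ext (map_zero _) (map_zero _) (map_zero _) (map_one _) (map_zero _)
  rw [e1]
  exact h1

private theorem D1_tw {K : Type} [Field K] (E : WeierstrassCurve K) (h3 : E.a₃ = 0) (F : Type)
    [Field F] [Algebra K F] (e : K) :
    Pool.Agent.Lib.MP_1a91b9_ntDF.tw 2 E F (e ^ 1) = tw E F e := by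
  unfold tw Pool.Agent.Lib.MP_1a91b9_ntDF.tw
  rw [h3, zero_mul, map_zero, show 2 / 2 = 1 from rfl, show 4 / 2 = 2 from rfl, pow_one, pow_one]

private theorem D1_propR {K : Type} [Field K] [NumberField K] {E : WeierstrassCurve K}
    (h3 : E.a₃ = 0) {F : Type} [Field F] [NumberField F] [Algebra K F] {e : K}
    (h : Pool.Agent.Lib.MP_1a91b9_ntDF.PropR 2 E F e) : PropR E F e := by
  obtain ⟨S, hS⟩ := h
  have e1 := D1_tw E h3 F e
  refine ⟨propZ_of ⟨S, fun q _ hq k N L M _ _ _ _ _ _ _ _ _ _ _ _ hM hR W C hC => ?_⟩,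
    S, fun q _ hq k L M _ _ _ _ _ _ _ _ _ hM hR => (hS q hq k L M hM fun i hi hi2 => ?_).2⟩
  · refine (hS q hq k L M hM fun i hi hi2 => ?_).1 1 one_pos one_lt_two N W C ?_
    · obtain rfl : i = 1 := by omega
      rw [e1]
      exact hR
    · rw [e1]
      exact hC
  · obtain rfl : i = 1 := by omega
    rw [e1]
    exact hR

/-- **The property of the field from the property of the tuple.** -/
theorem d2R (K : Type) [Field K] [NumberField K] (hK : Module.finrank ℚ K = 2)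
    (E : WeierstrassCurve K) (hE : E.a₁ = 0 ∧ E.a₃ = 0 ∧ E.a₆ = 0) (hΔ : E.Δ ≠ 0) (j D : ℤ)
    (hjD : (j, D) ∈ [(0, -3), (54000, -3), (-12288000, -3), (1728, -4), (287496, -4), (-3375, -7),
      (16581375, -7), (8000, -8), (-32768, -11), (-884736, -19), (-884736000, -43),
      (-147197952000, -67), (-262537412640768000, -163)])
    (hj : E.c₄ ^ 3 = j * E.Δ) (hD : ∃ s : K, s ^ 2 = D)
    (l : ℕ) (hl : l = 2 ∨ l = 4 ∧ ∃ i : K, i ^ 2 = -1)
    (F : Type) [Field F] [NumberField F] [Algebra K F]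
    (hF : IntermediateField.adjoin K {x : F | ∃ c : K, x ^ l = algebraMap K F c} = ⊤) {r : ℕ}
    {d : Fin r → K} (hd : ∀ i, d i ≠ 0) (h : Pool.Agent.Lib.MP_1a91b9_ntMQ.Fin.PropMF E F d) :
    Module.finrank K (NK 2 d) = 2 ^ r ∧ PropM E F (NK 2 d) := by
  obtain ⟨hfin, hM⟩ := Pool.Agent.Lib.MP_1a91b9_ntDF.d2 E hE F hd h
  refine ⟨hfin, ?_⟩
  intro M _ _ _ _ _ _ _ hMF
  obtain ⟨h1, h2⟩ := hM M hMF
  refine ⟨h1, fun F' _ _ _ _ _ _ _ => ?_⟩
  obtain ⟨c1, c2, c3, c4⟩ := h2 F'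
  refine ⟨⟨c1.1, fun hF1 hE1 => (c1.2 hF1).2 (Or.inl hE1)⟩, c2, fun hL => ?_, c3,
    fun e hx hne => D1_propR hE.2.1 (c4 e hx hne)⟩
  have hL' : LNonzero (E.baseChange F) := by
    rcases hL with hL | ⟨hF1, hE1⟩
    · exact hL
    · exact D1_one hK hE1 hjD hj hD F hF1
  have hF' := D1_inter l (hl.imp id fun h => h.1) F hF hd M hMF F'
  exact z_two K hK E hE hΔ j D hjD hj hD l hl F' hF' (D1_mul hL' c2)

end Pool.Agent.Lib.MP_1a91b9_ntRL
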