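import Pool.Agent.Lib.MP_1a91b9_ntMQ.UW4

/-!
# MP_1a91b9_nt (the fields unramified outside `2A`): all the properties, for a family of twists
-/

set_option autoImplicit false

namespace Pool.Agent.Lib.MP_1a91b9_ntRL

open NumberField WeierstrassCurve
open Pool.Agent.Lib.MP_1a91b9_ntW.J (RkZ)
open Pool.Agent.Lib.MP_1a91b9_ntZ (Atl)
open Pool.Agent.Lib.MP_1a91b9_ntMQ

open Classical in
/-- **All the properties for the twists by the `δ i`**, the tuple is multiplied by a fixed tuple `ρ`. (As `dstT` in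
`DT/P4`, with `DivGI.exc` as in `dstabBF`.) -/
theorem dstQ (K : Type) [Field K] [NumberField K] (hK : Module.finrank ℚ K = 2)
    (a b : K) (hE : b * (a ^ 2 - 4 * b) ≠ 0) (j D : ℤ)
    (hjD : (j, D) ∈ Pool.Agent.Lib.MP_1a91b9_ntY.cmList)
    (hj : 256 * (a ^ 2 - 3 * b) ^ 3 = j * (b ^ 2 * (a ^ 2 - 4 * b))) (hD : ∃ s : K, s ^ 2 = D)
    (l : ℕ) (hl : l = 2 ∨ l = 4 ∧ ∃ i : K, i ^ 2 = -1)
    (F : Type) [Field F] [NumberField F] [Algebra K F]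
    (hF : IntermediateField.adjoin K {x : F | ∃ c : K, x ^ l = algebraMap K F c} = ⊤) (r k : ℕ)
    (ρ : Fin r → 𝓞 K) (hρ : ∀ j, ρ j ≠ 0) (δ : Fin k → K) (h0 : ∀ i, δ i ≠ 0) (m u : 𝓞 K) (c : ℝ)
    (t : ℕ)
    (h : DivGI (𝓞 K) r m u (fun d => Atl t fun i => ∀ J : Finset (Fin r), J.Nonempty →
      RkZ (⟨0, algebraMap K F (δ i * ((∏ j ∈ J, (ρ j * d j) : 𝓞 K) : K) * a), 0,
        algebraMap K F ((δ i * ((∏ j ∈ J, (ρ j * d j) : 𝓞 K) : K)) ^ 2 * b), 0⟩ :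
          WeierstrassCurve F)) c) :
    DivGI (𝓞 K) r m u (fun d => Atl t fun i =>
      PMF (δ i * a) (δ i ^ 2 * b) F (fun i => ((ρ i * d i : 𝓞 K) : K))) c := by
  have hneg : D < 0 := by
    unfold Pool.Agent.Lib.MP_1a91b9_ntY.cmList at hjD
    simp only [List.mem_cons, Prod.mk.injEq, List.not_mem_nil, or_false] at hjD
    rcases hjD with ⟨-, rfl⟩ | ⟨-, rfl⟩ | ⟨-, rfl⟩ | ⟨-, rfl⟩ | ⟨-, rfl⟩ | ⟨-, rfl⟩ | ⟨-, rfl⟩ |
      ⟨-, rfl⟩ | ⟨-, rfl⟩ | ⟨-, rfl⟩ | ⟨-, rfl⟩ | ⟨-, rfl⟩ | ⟨-, rfl⟩ <;> norm_num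
  have hb : b ≠ 0 := left_ne_zero_of_mul hE
  have hb' : a ^ 2 - 4 * b ≠ 0 := right_ne_zero_of_mul hE
  have hE' : ∀ i, δ i ^ 2 * b * ((δ i * a) ^ 2 - 4 * (δ i ^ 2 * b)) ≠ 0 := by
    intro i
    have e : δ i ^ 2 * b * ((δ i * a) ^ 2 - 4 * (δ i ^ 2 * b)) =
        δ i ^ 4 * (b * (a ^ 2 - 4 * b)) := by ring
    rw [e]
    exact mul_ne_zero (pow_ne_zero 4 (h0 i)) hE
  have hj' : ∀ i, 256 * ((δ i * a) ^ 2 - 3 * (δ i ^ 2 * b)) ^ 3 =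
      j * ((δ i ^ 2 * b) ^ 2 * ((δ i * a) ^ 2 - 4 * (δ i ^ 2 * b))) := by
    intro i
    linear_combination (δ i) ^ 6 * hj
  have hpm := fun i : Fin k => Pool.Agent.Lib.MP_1a91b9_ntMQ.pmf_of K hK (δ i * a) (δ i ^ 2 * b)
    (hE' i) j D hjD (hj' i) hD l hl F hF r
  choose B hB0 hB using hpm
  obtain ⟨s, hs⟩ := hD
  have hfu : Finite (𝓞 K)ˣ := Pool.Agent.Lib.MP_1a91b9_ntW.J.finite_units hK
    (Pool.Agent.Lib.MP_1a91b9_ntW.J.no_real hs hneg)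
  have hJ : Pool.Agent.Lib.MP_1a91b9_nuI.HasJ (Pool.Agent.Lib.MP_1a91b9_ntL.crv a b) j := by
    refine Pool.Agent.Lib.MP_1a91b9_ntY.hasJ_crv ?_
    linear_combination 16 * hj
  have hW : Pool.Agent.Lib.MP_1a91b9_ntY.CMK (Pool.Agent.Lib.MP_1a91b9_ntL.crv a b) := by
    refine ⟨?_, j, D, s, hjD, hs, hJ⟩
    rw [Pool.Agent.Lib.MP_1a91b9_ntY.crv_Δ]
    exact mul_ne_zero (mul_ne_zero (by norm_num) (pow_ne_zero 2 hb)) hb'
  have hP : Pool.Agent.Lib.MP_1a91b9_ntY.Pt2 (Pool.Agent.Lib.MP_1a91b9_ntL.crv a b) := by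
    refine ⟨0, ?_⟩
    unfold Pool.Agent.Lib.MP_1a91b9_ntL.crv WeierstrassCurve.b₂ WeierstrassCurve.b₄ WeierstrassCurve.b₆
    ring
  have hpi : IsPrincipalIdealRing (𝓞 K) := Pool.Agent.Lib.MP_1a91b9_ntC.pid_of hK hW hP
  obtain ⟨C, hC⟩ := exc_bound K F hρ
  refine h.exc (fun X => ?_) (τ := Finset (Fin r) × F)
    (((Finset.univ : Finset (Finset (Fin r))).filter Finset.Nonempty) ×ˢ
      ((Finset.univ : Finset (Fin k)).biUnion B))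
    (fun p d => (∀ k, d k ≠ 0) ∧
      IsSquare (algebraMap K F ((∏ k ∈ p.1, (ρ k * d k) : 𝓞 K) : K) * p.2))
    C (fun d hd hP => ?_) (fun p hp => ?_)
  · refine (Pool.Agent.Lib.MP_1a91b9_ntW.J.finite_norm_le (K := K) X).subset ?_
    rintro d ⟨h1, h2⟩
    exact ⟨h1.ne_zero, h2⟩
  · by_cases hex : ∃ p ∈ ((Finset.univ : Finset (Finset (Fin r))).filter Finset.Nonempty) ×ˢ
        ((Finset.univ : Finset (Fin k)).biUnion B),
        (∀ k, d k ≠ 0) ∧ IsSquare (algebraMap K F ((∏ k ∈ p.1, (ρ k * d k) : 𝓞 K) : K) * p.2)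
    · exact Or.inr hex
    · left
      refine Pool.Agent.Lib.MP_1a91b9_ntZ.Atl.mono (fun i hi => ?_) hP
      refine hB i (fun j => ρ j * d j) (fun j => mul_ne_zero (hρ j) (hd j).ne_zero) (fun J hJ => ?_)
        fun β hβ J hJ hsq => hex ⟨(J, β), ?_, fun k => (hd k).ne_zero, hsq⟩
      · have h1 := hi J hJ
        have e1 : δ i * ((∏ j ∈ J, (ρ j * d j) : 𝓞 K) : K) * a =
            ((∏ j ∈ J, (ρ j * d j) : 𝓞 K) : K) * (δ i * a) := by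
          ring
        have e2 : (δ i * ((∏ j ∈ J, (ρ j * d j) : 𝓞 K) : K)) ^ 2 * b =
            ((∏ j ∈ J, (ρ j * d j) : 𝓞 K) : K) ^ 2 * (δ i ^ 2 * b) := by
          ring
        rw [e1, e2] at h1
        exact h1
      · rw [Finset.mem_product, Finset.mem_filter, Finset.mem_biUnion]
        exact ⟨⟨Finset.mem_univ _, hJ⟩, i, Finset.mem_univ _, hβ⟩
  · rw [Finset.mem_product, Finset.mem_filter, Finset.mem_biUnion] at hp
    obtain ⟨i₀, -, hi₀⟩ := hp.2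
    obtain ⟨i, hi⟩ := hC p.1 p.2 hp.1.2 (hB0 i₀ _ hi₀)
    exact ⟨i, fun d => hi d⟩

end Pool.Agent.Lib.MP_1a91b9_ntRL
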