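import Pool.Agent.Lib.MP_1a91b9_ntRL.R3
import Pool.Agent.Lib.MP_1a91b9_ntRL.R4
import Pool.Agent.Lib.MP_1a91b9_ntDF.D1
import Pool.Agent.Lib.MP_1a91b9_ntMQ.UW8

/-!
# MP_1a91b9_nt (the fields unramified outside `2A`): the law for the tuples
-/

set_option autoImplicit false

namespace Pool.Agent.Lib.MP_1a91b9_ntRL

open NumberField
open Pool.Agent.Lib.MP_1a91b9_ntDF (cK tw cst)
open WeierstrassCurve
open Pool.Agent.Lib.MP_1a91b9_ntL (crv)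
open Pool.Agent.Lib.MP_1a91b9_ntW.J (RkZ Cls2)
open Pool.Agent.Lib.MP_1a91b9_ntZ (bn Atl CB cb_two)
open Pool.Agent.Lib.MP_1a91b9_ntMQ (DivGI DivGI.mono set_divI)
open Pool.Agent.Lib.MP_1a91b9_ntMQ.Fin (PropMF propMF_of)

private theorem R5_tw {K : Type} [Field K] {E : WeierstrassCurve K} {a b : K} (hE : E = crv a b)
    (δ : K) : tw 2 E K δ = crv (δ * a) (δ ^ 2 * b) := by
  rw [hE]
  unfold tw crv
  refine WeierstrassCurve.ext rfl ?_ ?_ ?_ rfl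
  · show algebraMap K K (a * δ ^ 1) = δ * a
    rw [pow_one, mul_comm]
    rfl
  · show algebraMap K K (0 * δ ^ 1) = 0
    rw [zero_mul, map_zero]
  · show algebraMap K K (b * δ ^ 2) = δ ^ 2 * b
    rw [mul_comm]
    rfl

open Classical in
private theorem R5_cnt {α : Type} (S : Finset α) (t : ℕ) (P : α → Prop) :
    Atl t (fun i : Fin S.card => P (S.equivFin.symm i)) → t ≤ (S.filter P).card := by
  intro h
  unfold Atl at h
  refine h.trans ?_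
  refine Finset.card_le_card_of_injOn (fun i => ((S.equivFin.symm i : S) : α)) ?_ ?_
  · intro i hi
    rw [Finset.mem_coe, Finset.mem_filter] at hi
    rw [Finset.mem_coe, Finset.mem_filter]
    exact ⟨(S.equivFin.symm i).2, hi.2⟩
  · intro i _ j _ hij
    exact S.equivFin.symm.injective (Subtype.ext hij)

open Classical in
/-- **The law for the tuples of divisors and sets of twists**, the tuple is multiplied by a fixed tuple `ρ`. -/
theorem l2Q (K : Type) [Field K] [NumberField K] (hK : Module.finrank ℚ K = 2)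
    (E : WeierstrassCurve K) (hE : E.a₁ = 0 ∧ E.a₃ = 0 ∧ E.a₆ = 0) (hΔ : E.Δ ≠ 0) (j D : ℤ)
    (hjD : (j, D) ∈ [(0, -3), (54000, -3), (-12288000, -3), (1728, -4), (287496, -4), (-3375, -7),
      (16581375, -7), (8000, -8), (-32768, -11), (-884736, -19), (-884736000, -43),
      (-147197952000, -67), (-262537412640768000, -163)])
    (hj : E.c₄ ^ 3 = j * E.Δ) (hD : ∃ s : K, s ^ 2 = D)
    (l : ℕ) (hl : l = 2 ∨ l = 4 ∧ ∃ i : K, i ^ 2 = -1)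
    (F : Type) [Field F] [NumberField F] [Algebra K F]
    (hF : IntermediateField.adjoin K {x : F | ∃ c : K, x ^ l = algebraMap K F c} = ⊤) (r : ℕ)
    (ρ : Fin r → 𝓞 K) (hρ : ∀ j, ρ j ≠ 0) (T : Set K) (h0 : 0 ∉ T)
    (hT : ∀ δ ∈ T, ∀ δ' ∈ T, δ ≠ δ' → ∀ e ∈ ({1, -1, E.a₄, -E.a₄} : Set K), ∀ x : F,
      x ^ 2 * algebraMap K F δ' ≠ algebraMap K F (e * δ))
    (n : ℕ) (m u : 𝓞 K) (hm : m ∣ (2 : 𝓞 K) ^ n)
    (hu : ∀ p : 𝓞 K, Prime p → ¬ (p ^ 2 ∣ m ∧ p ^ 2 ∣ u)) (t : ℕ) (v : ℝ)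
    (hv : v = if T.Infinite then 1 else ∑ j ∈ Finset.Icc t T.ncard, (T.ncard.choose j : ℝ) *
      (cst 2 K F ^ ((2 ^ r - 1) * Module.finrank K F)) ^ j *
        (1 - cst 2 K F ^ ((2 ^ r - 1) * Module.finrank K F)) ^ (T.ncard - j)) :
    DivGI (𝓞 K) r m u (fun d => (t : ℕ∞) ≤
      {δ ∈ T | PropMF (tw 2 E K δ) F (cK K fun i => ρ i * d i)}.encard) v := by
  obtain ⟨c, hc0⟩ : ∃ c, c = cst 2 K F := ⟨_, rfl⟩
  have hc' : c = Pool.Agent.Lib.MP_1a91b9_ntDV.Fin.cst K F := by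
    rw [hc0]
    unfold cst Pool.Agent.Lib.MP_1a91b9_ntDV.Fin.cst
    rw [if_neg (by norm_num : ¬ (2 : ℕ) = 3)]
  rw [← hc0] at hv
  have hc := hc'
  unfold Pool.Agent.Lib.MP_1a91b9_ntDV.Fin.cst at hc
  have hjD' : (j, D) ∈ Pool.Agent.Lib.MP_1a91b9_ntY.cmList := hjD
  obtain ⟨h1, h3, h6⟩ := hE
  obtain ⟨a, ha⟩ : ∃ a, a = E.a₂ := ⟨_, rfl⟩
  obtain ⟨b, hb⟩ : ∃ b, b = E.a₄ := ⟨_, rfl⟩
  have hE : E = crv a b := WeierstrassCurve.ext h1 ha.symm h3 hb.symm h6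
  rw [← hb] at hT
  have hΔ' := hΔ
  have hj' := hj
  rw [hE] at hΔ' hj'
  rw [Pool.Agent.Lib.MP_1a91b9_ntY.crv_Δ] at hΔ' hj'
  rw [Pool.Agent.Lib.MP_1a91b9_ntY.crv_c₄] at hj'
  have hE' : b * (a ^ 2 - 4 * b) ≠ 0 := by
    intro h
    refine hΔ' ?_
    linear_combination 16 * b * h
  have hj2 : 256 * (a ^ 2 - 3 * b) ^ 3 = j * (b ^ 2 * (a ^ 2 - 4 * b)) := by
    have h16 : (16 : K) ≠ 0 := by norm_num
    refine mul_left_cancel₀ h16 ?_
    linear_combination hj'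
  have hneg : D < 0 := by
    have h7 := hjD'
    unfold Pool.Agent.Lib.MP_1a91b9_ntY.cmList at h7
    simp only [List.mem_cons, Prod.mk.injEq, List.not_mem_nil, or_false] at h7
    rcases h7 with ⟨-, rfl⟩ | ⟨-, rfl⟩ | ⟨-, rfl⟩ | ⟨-, rfl⟩ | ⟨-, rfl⟩ | ⟨-, rfl⟩ | ⟨-, rfl⟩ |
      ⟨-, rfl⟩ | ⟨-, rfl⟩ | ⟨-, rfl⟩ | ⟨-, rfl⟩ | ⟨-, rfl⟩ | ⟨-, rfl⟩ <;> norm_num
  have hfu : Finite (𝓞 K)ˣ := by
    obtain ⟨s, hs⟩ := hD
    exact Pool.Agent.Lib.MP_1a91b9_ntW.J.finite_units hK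
      (Pool.Agent.Lib.MP_1a91b9_ntW.J.no_real hs hneg)
  have hfin : ∀ X : ℝ, {D : 𝓞 K | Squarefree D ∧ |Algebra.norm ℤ D| ≤ X}.Finite := by
    intro X
    refine (Pool.Agent.Lib.MP_1a91b9_ntW.J.finite_norm_le (K := K) X).subset ?_
    rintro d ⟨h1, h2⟩
    exact ⟨h1.ne_zero, h2⟩
  have hcb : CB (c ^ ((2 ^ r - 1) * Module.finrank K F)) := (cb_two hc).pow _
  have key : ∀ S : Finset K, (S : Set K) ⊆ T →
      DivGI (𝓞 K) r m u (fun d => t ≤ (S.filter fun δ : K =>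
        PropMF (tw 2 E K δ) F (cK K fun i => ρ i * d i)).card)
        (bn S.card t (c ^ ((2 ^ r - 1) * Module.finrank K F))) := by
    intro S hS
    obtain ⟨δ, hδ⟩ : ∃ δ : Fin S.card → K, δ = fun i => ((S.equivFin.symm i : S) : K) := ⟨_, rfl⟩
    have hδT : ∀ i, δ i ∈ T := fun i => by
      rw [hδ]
      exact hS (S.equivFin.symm i).2
    have hinj : ∀ i i', i ≠ i' → δ i ≠ δ i' := fun i i' hii h => by
      rw [hδ] at h
      exact hii (S.equivFin.symm.injective (Subtype.ext h))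
    have hδ0 : ∀ i, δ i ≠ 0 := fun i h => h0 (by rw [← h]; exact hδT i)
    have hst := stdQ hK a b hE' j D hjD' hj2 hD l hl F hF r S.card ρ hρ δ hδ0
      (fun i i' hii e he ⟨x, hx⟩ => by
        have hδF : algebraMap K F (δ i') ≠ 0 := (map_ne_zero _).2 (hδ0 i')
        refine hT (δ i) (hδT i) (δ i') (hδT i') (hinj i i' hii) e he
          (x * (algebraMap K F (δ i'))⁻¹) ?_
        rw [map_mul, map_mul] at hx
        rw [map_mul, mul_pow, hx]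
        field_simp) t n m u hm hu c hc
    have h2 := dstQ K hK a b hE' j D hjD' hj2 hD l hl F hF r S.card ρ hρ δ hδ0 m u _ t hst
    refine h2.mono hfin fun d _ h3 => R5_cnt S t _ (h3.mono fun i hi => ?_)
    have hδi : ((S.equivFin.symm i : S) : K) = δ i := by rw [hδ]
    rw [hδi]
    have htw := R5_tw hE (δ i)
    refine propMF_of hK (tw 2 E K (δ i)) (δ i * a) (δ i ^ 2 * b) htw j D hjD ?_ hD F _ hi
    rw [htw, Pool.Agent.Lib.MP_1a91b9_ntY.crv_Δ, Pool.Agent.Lib.MP_1a91b9_ntY.crv_c₄]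
    linear_combination (δ i) ^ 6 * hj'
  exact set_divI hfin (Q := fun (δ : K) (d : Fin r → 𝓞 K) =>
    PropMF (tw 2 E K δ) F (cK K fun i => ρ i * d i)) (T := T) (t := t)
    hcb.1 hcb.2 (v := v) (by rw [hv, bn]) key

end Pool.Agent.Lib.MP_1a91b9_ntRL
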