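import Pool.Agent.Lib.MP_1a91b9_ntRL.L1
import Pool.Agent.Lib.MP_1a91b9_ntRL.R5
import Pool.Agent.Lib.MP_1a91b9_ntRL.D1

/-!
# MP_1a91b9_nt (the fields unramified outside `2A`): the law
-/

set_option autoImplicit false

namespace Pool.Agent.Lib.MP_1a91b9_ntRL

open NumberField IsDedekindDomain
open Pool.Agent.Lib.MP_1a91b9_ntL (crv)
open Pool.Agent.Lib.MP_1a91b9_ntDF (Pf cK NK Ext)

/-- The number of the curves with the property. -/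
private theorem F_set {K : Type} {T : Set K} {t : ℕ} {P Q : K → Prop} (h : ∀ δ ∈ T, P δ → Q δ)
    (ht : (t : ℕ∞) ≤ {δ ∈ T | P δ}.encard) : (t : ℕ∞) ≤ {δ ∈ T | Q δ}.encard :=
  ht.trans (Set.encard_le_encard fun δ hδ => ⟨hδ.1, h δ hδ.1 hδ.2⟩)

private theorem F_ex {K : Type} {T : Set K} {t : ℕ} {P : K → Prop} (h0 : 0 < t)
    (ht : (t : ℕ∞) ≤ {δ ∈ T | P δ}.encard) : ∃ δ ∈ T, P δ := by
  have h1 : {δ ∈ T | P δ}.encard ≠ 0 := by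
    intro h
    rw [h] at ht
    have h2 : (t : ℕ∞) = 0 := le_antisymm ht bot_le
    rw [Nat.cast_eq_zero] at h2
    omega
  obtain ⟨δ, hδ⟩ := Set.encard_ne_zero.1 h1
  exact ⟨δ, hδ.1, hδ.2⟩

/-- The field `K` is a principal ideal domain. -/
theorem F_pid {K : Type} [Field K] [NumberField K] (hK : Module.finrank ℚ K = 2)
    {E : WeierstrassCurve K} (hΔ : E.Δ ≠ 0) (h1 : E.a₁ = 0) (h3 : E.a₃ = 0) (h6 : E.a₆ = 0) {j D : ℤ}
    (hjD : (j, D) ∈ [(0, -3), (54000, -3), (-12288000, -3), (1728, -4), (287496, -4), (-3375, -7),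
      (16581375, -7), (8000, -8), (-32768, -11), (-884736, -19), (-884736000, -43),
      (-147197952000, -67), (-262537412640768000, -163)])
    (hj : E.c₄ ^ 3 = j * E.Δ) (hD : ∃ s : K, s ^ 2 = D) : IsPrincipalIdealRing (𝓞 K) := by
  obtain ⟨a, ha⟩ : ∃ a, a = E.a₂ := ⟨_, rfl⟩
  obtain ⟨b, hb⟩ : ∃ b, b = E.a₄ := ⟨_, rfl⟩
  have hE : E = crv a b := WeierstrassCurve.ext h1 ha.symm h3 hb.symm h6
  have hΔ' := hΔ
  have hj' := hj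
  rw [hE] at hΔ' hj'
  rw [Pool.Agent.Lib.MP_1a91b9_ntY.crv_Δ] at hΔ' hj'
  rw [Pool.Agent.Lib.MP_1a91b9_ntY.crv_c₄] at hj'
  have hE' : b * (a ^ 2 - 4 * b) ≠ 0 := by
    intro h
    refine hΔ' ?_
    linear_combination 16 * b * h
  have hj2 : 256 * (a ^ 2 - 3 * b) ^ 3 = j * (b ^ 2 * (a ^ 2 - 4 * b)) := by
    have h16 : (16 : K) ≠ 0 := by norm_num
    refine mul_left_cancel₀ h16 ?_
    linear_combination hj'
  have hb0 : b ≠ 0 := left_ne_zero_of_mul hE'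
  have hW : Pool.Agent.Lib.MP_1a91b9_ntY.CMK (crv a b) := by
    obtain ⟨s, hs⟩ := hD
    refine ⟨?_, j, D, s, hjD, hs, ?_⟩
    · rw [Pool.Agent.Lib.MP_1a91b9_ntY.crv_Δ]
      exact mul_ne_zero (mul_ne_zero (by norm_num) (pow_ne_zero 2 hb0)) (right_ne_zero_of_mul hE')
    · refine Pool.Agent.Lib.MP_1a91b9_ntY.hasJ_crv ?_
      linear_combination 16 * hj2
  have hP : Pool.Agent.Lib.MP_1a91b9_ntY.Pt2 (crv a b) := by
    refine ⟨0, ?_⟩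
    unfold crv WeierstrassCurve.b₂ WeierstrassCurve.b₄ WeierstrassCurve.b₆
    ring
  exact Pool.Agent.Lib.MP_1a91b9_ntC.pid_of hK hW hP

/-- The twist. -/
private theorem F_tw2 {K : Type} [Field K] [NumberField K] {E : WeierstrassCurve K} (h1 : E.a₁ = 0)
    (h3 : E.a₃ = 0) (h6 : E.a₆ = 0) (hΔ : E.Δ ≠ 0) {j : ℤ} (hj : E.c₄ ^ 3 = j * E.Δ) {δ : K}
    (hδ : δ ≠ 0) : (tw E K δ).Δ ≠ 0 ∧ (tw E K δ).c₄ ^ 3 = j * (tw E K δ).Δ := by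
  have e1 : tw E K δ = ⟨0, E.a₂ * δ, 0, E.a₄ * δ ^ 2, 0⟩ := rfl
  have e2 : (tw E K δ).Δ = δ ^ 6 * E.Δ := by
    rw [e1]
    unfold WeierstrassCurve.Δ WeierstrassCurve.b₂ WeierstrassCurve.b₄ WeierstrassCurve.b₆
      WeierstrassCurve.b₈
    rw [h1, h3, h6]
    ring
  have e3 : (tw E K δ).c₄ = δ ^ 2 * E.c₄ := by
    rw [e1]
    unfold WeierstrassCurve.c₄ WeierstrassCurve.b₂ WeierstrassCurve.b₄
    rw [h1, h3]
    ring
  refine ⟨?_, ?_⟩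
  · rw [e2]
    exact mul_ne_zero (pow_ne_zero 6 hδ) hΔ
  · rw [e2, e3, mul_pow, hj]
    ring

private theorem F_tw {K : Type} [Field K] {E : WeierstrassCurve K} (h3 : E.a₃ = 0) (δ : K) :
    Pool.Agent.Lib.MP_1a91b9_ntDF.tw 2 E K δ = tw E K δ := by
  unfold tw Pool.Agent.Lib.MP_1a91b9_ntDF.tw
  rw [h3, zero_mul, map_zero, show 2 / 2 = 1 from rfl, show 4 / 2 = 2 from rfl, pow_one]

open Classical in
/-- **The law for the fields unramified outside `2A`.** -/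
theorem fin_ram (K : Type) [Field K] [NumberField K] (hK : Module.finrank ℚ K = 2)
    (E : WeierstrassCurve K) (hE : E.a₁ = 0 ∧ E.a₃ = 0 ∧ E.a₆ = 0) (hΔ : E.Δ ≠ 0) (j D : ℤ)
    (hjD : (j, D) ∈ [(0, -3), (54000, -3), (-12288000, -3), (1728, -4), (287496, -4), (-3375, -7),
      (16581375, -7), (8000, -8), (-32768, -11), (-884736, -19), (-884736000, -43),
      (-147197952000, -67), (-262537412640768000, -163)])
    (hj : E.c₄ ^ 3 = j * E.Δ) (hD : ∃ s : K, s ^ 2 = D)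
    (l : ℕ) (hl : l = 2 ∨ l = 4 ∧ ∃ i : K, i ^ 2 = -1)
    (F : Type) [Field F] [NumberField F] [Algebra K F]
    (hF : IntermediateField.adjoin K {x : F | ∃ c : K, x ^ l = algebraMap K F c} = ⊤) (r : ℕ)
    (T : Set K) (h0 : 0 ∉ T)
    (hT : ∀ δ ∈ T, ∀ δ' ∈ T, δ ≠ δ' → ∀ e ∈ ({1, -1, E.a₄, -E.a₄} : Set K), ∀ x : F,
      x ^ 2 * algebraMap K F δ' ≠ algebraMap K F (e * δ))
    (n : ℕ) (m u : 𝓞 K) (hm : m ∣ 2 ^ n) (hu : ∀ q, Prime q → ¬ (q ^ 2 ∣ m ∧ q ^ 2 ∣ u)) (t : ℕ)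
    (ht : 0 < t) (v : ℝ)
    (hv : v = if T.Infinite then 1 else ∑ j ∈ Finset.Icc t T.ncard, (T.ncard.choose j : ℝ) *
      (cst K F ^ ((2 ^ r - 1) * Module.finrank K F)) ^ j *
        (1 - cst K F ^ ((2 ^ r - 1) * Module.finrank K F)) ^ (T.ncard - j))
    (ε : ℝ) (hε : 0 < ε) :
    ∀ᶠ X : ℝ in Filter.atTop, 1 - ε ≤
      (Nat.card {A : 𝓞 K // (Squarefree A ∧ m ∣ A - u ∧ |Algebra.norm ℤ A| ≤ X) ∧
        (v - ε) * (Nat.card {N : IntermediateField K (AlgebraicClosure K) //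
          N ∈ Ext K 2 r ∧ Unr A N} : ℝ) ≤
          Nat.card {N : IntermediateField K (AlgebraicClosure K) // N ∈ Ext K 2 r ∧ Unr A N ∧
            t ≤ {δ ∈ T | PropM (tw E K δ) F N}.encard}} : ℝ) /
        (Nat.card {A : 𝓞 K // Squarefree A ∧ m ∣ A - u ∧ |Algebra.norm ℤ A| ≤ X} : ℝ) := by
  obtain ⟨h1, h3, h6⟩ := hE
  have hc : cst K F = Pool.Agent.Lib.MP_1a91b9_ntDF.cst 2 K F := by
    unfold cst Pool.Agent.Lib.MP_1a91b9_ntDF.cst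
    rw [if_neg (by norm_num : ¬ (2 : ℕ) = 3)]
  rw [hc] at hv
  have hneg : D < 0 := by
    have h7 := hjD
    simp only [List.mem_cons, Prod.mk.injEq, List.not_mem_nil, or_false] at h7
    omega
  have hfu : Finite (𝓞 K)ˣ := by
    obtain ⟨s, hs⟩ := hD
    exact Pool.Agent.Lib.MP_1a91b9_ntW.J.finite_units hK
      (Pool.Agent.Lib.MP_1a91b9_ntW.J.no_real hs hneg)
  have hpi : IsPrincipalIdealRing (𝓞 K) := F_pid hK hΔ h1 h3 h6 hjD hj hD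
  have hfin : ∀ X : ℝ, {D : 𝓞 K | Squarefree D ∧ |Algebra.norm ℤ D| ≤ X}.Finite := by
    intro X
    refine (Pool.Agent.Lib.MP_1a91b9_ntW.J.finite_norm_le (K := K) X).subset ?_
    rintro d ⟨h1, h2⟩
    exact ⟨h1.ne_zero, h2⟩
  refine law_ram hfin r m u (fun N => t ≤ {δ ∈ T | PropM (tw E K δ) F N}.encard) v
    (fun ρ hρ => ?_) ε hε
  refine (l2Q K hK E ⟨h1, h3, h6⟩ hΔ j D hjD hj hD l hl F hF r ρ hρ T h0 hT n m u hm hu t v hv).mono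
    hfin fun d hd hM => ?_
  have h7 : ∀ i, cK K (fun i => ρ i * d i) i ≠ 0 := by
    intro i
    have h7 : ρ i * d i ≠ 0 := mul_ne_zero (hρ i) (hd i).ne_zero
    show ((ρ i * d i : 𝓞 K) : K) ≠ 0
    exact_mod_cast h7
  have h8 : ∀ δ : K, δ ≠ 0 →
      Pool.Agent.Lib.MP_1a91b9_ntMQ.Fin.PropMF (Pool.Agent.Lib.MP_1a91b9_ntDF.tw 2 E K δ) F
        (cK K fun i => ρ i * d i) →
      Module.finrank K (NK 2 (cK K fun i => ρ i * d i)) = 2 ^ r ∧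
        PropM (tw E K δ) F (NK 2 (cK K fun i => ρ i * d i)) := by
    intro δ hδ0 h
    rw [F_tw h3] at h
    obtain ⟨e1, e2⟩ := F_tw2 h1 h3 h6 hΔ hj hδ0
    exact d2R K hK (tw E K δ) ⟨rfl, rfl, rfl⟩ e1 j D hjD e2 hD l hl F hF h7 h
  obtain ⟨δ, hδT, hδ⟩ := F_ex ht hM
  exact ⟨(h8 δ (fun h => h0 (h ▸ hδT)) hδ).1,
    F_set (fun δ hδT h => (h8 δ (fun h' => h0 (h' ▸ hδT)) h).2) hM⟩

end Pool.Agent.Lib.MP_1a91b9_ntRL
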