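import Pool.Agent.Lib.MP_1a91b9_ntRL.Fin
import Pool.Agent.Lib.MP_1a91b9_ntSP.S2

/-!
# MP_1a91b9_nt (the fields unramified outside `2A`): infinite sets of twists without a condition over `F`
-/

set_option autoImplicit false

namespace Pool.Agent.Lib.MP_1a91b9_ntRL

open NumberField
open Pool.Agent.Lib.MP_1a91b9_ntDF (Ext)

private theorem F4_ratio {α : Type*} {P Q Q' : α → Prop} (h : ∀ a, P a → Q' a → Q a) :
    (Nat.card {a // P a ∧ Q' a} : ℝ) / (Nat.card {a // P a} : ℝ) ≤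
      (Nat.card {a // P a ∧ Q a} : ℝ) / (Nat.card {a // P a} : ℝ) := by
  rcases finite_or_infinite {a // P a} with hf | hi
  · have h1 : Finite {a // P a ∧ Q a} :=
      Finite.of_injective (fun a : {a // P a ∧ Q a} => (⟨a.1, a.2.1⟩ : {a // P a})) fun a b hab => by
        have h := congrArg Subtype.val hab
        exact Subtype.ext h
    have h2 : Nat.card {a // P a ∧ Q' a} ≤ Nat.card {a // P a ∧ Q a} :=
      Nat.card_le_card_of_injective
        (fun a : {a // P a ∧ Q' a} => (⟨a.1, a.2.1, h a.1 a.2.1 a.2.2⟩ : {a // P a ∧ Q a})) fun a b hab => by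
        have h := congrArg Subtype.val hab
        exact Subtype.ext h
    have h3 : (Nat.card {a // P a ∧ Q' a} : ℝ) ≤ (Nat.card {a // P a ∧ Q a} : ℝ) := by exact_mod_cast h2
    exact div_le_div_of_nonneg_right h3 (Nat.cast_nonneg _)
  · rw [Nat.card_eq_zero_of_infinite (α := {a // P a}), Nat.cast_zero, div_zero, div_zero]

private theorem F4_inner {α : Type*} {P R Q Q' : α → Prop} {v : ℝ} (h : ∀ a, Q' a → Q a)
    (h1 : v * (Nat.card {a // P a ∧ R a} : ℝ) ≤ (Nat.card {a // P a ∧ R a ∧ Q' a} : ℝ)) :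
    v * (Nat.card {a // P a ∧ R a} : ℝ) ≤ (Nat.card {a // P a ∧ R a ∧ Q a} : ℝ) := by
  rcases finite_or_infinite {a // P a ∧ R a} with hf | hi
  · have h2 : Finite {a // P a ∧ R a ∧ Q a} :=
      Finite.of_injective (fun a : {a // P a ∧ R a ∧ Q a} => (⟨a.1, a.2.1, a.2.2.1⟩ : {a // P a ∧ R a}))
        fun a b hab => by
          have h := congrArg Subtype.val hab
          exact Subtype.ext h
    have h3 : Nat.card {a // P a ∧ R a ∧ Q' a} ≤ Nat.card {a // P a ∧ R a ∧ Q a} :=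
      Nat.card_le_card_of_injective
        (fun a : {a // P a ∧ R a ∧ Q' a} =>
          (⟨a.1, a.2.1, a.2.2.1, h a.1 a.2.2.2⟩ : {a // P a ∧ R a ∧ Q a})) fun a b hab => by
        have h := congrArg Subtype.val hab
        exact Subtype.ext h
    have h4 : (Nat.card {a // P a ∧ R a ∧ Q' a} : ℝ) ≤ (Nat.card {a // P a ∧ R a ∧ Q a} : ℝ) := by
      exact_mod_cast h3
    exact h1.trans h4
  · rw [Nat.card_eq_zero_of_infinite (α := {a // P a ∧ R a}), Nat.cast_zero, mul_zero]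
    exact Nat.cast_nonneg _

open Classical in
/-- **The law for the fields unramified outside `2A`**; the elements of an infinite set `T` are only supposed to be
pairwise different modulo squares of `K`. -/
theorem fin_ram4 (K : Type) [Field K] [NumberField K] (hK : Module.finrank ℚ K = 2)
    (E : WeierstrassCurve K) (hE : E.a₁ = 0 ∧ E.a₃ = 0 ∧ E.a₆ = 0) (hΔ : E.Δ ≠ 0) (j D : ℤ)
    (hjD : (j, D) ∈ [(0, -3), (54000, -3), (-12288000, -3), (1728, -4), (287496, -4), (-3375, -7),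
      (16581375, -7), (8000, -8), (-32768, -11), (-884736, -19), (-884736000, -43),
      (-147197952000, -67), (-262537412640768000, -163)])
    (hj : E.c₄ ^ 3 = j * E.Δ) (hD : ∃ s : K, s ^ 2 = D)
    (l : ℕ) (hl : l = 2 ∨ l = 4 ∧ ∃ i : K, i ^ 2 = -1)
    (F : Type) [Field F] [NumberField F] [Algebra K F]
    (hF : IntermediateField.adjoin K {x : F | ∃ c : K, x ^ l = algebraMap K F c} = ⊤) (r : ℕ)
    (T : Set K) (h0 : 0 ∉ T)
    (hT : T.Infinite → ∀ δ ∈ T, ∀ δ' ∈ T, δ ≠ δ' → ∀ x : K, x ^ 2 * δ' ≠ δ)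
    (hT' : T.Finite → ∀ δ ∈ T, ∀ δ' ∈ T, δ ≠ δ' → ∀ e ∈ ({1, -1, E.a₄, -E.a₄} : Set K), ∀ x : F,
      x ^ 2 * algebraMap K F δ' ≠ algebraMap K F (e * δ))
    (n : ℕ) (m u : 𝓞 K) (hm : m ∣ 2 ^ n) (hu : ∀ q, Prime q → ¬ (q ^ 2 ∣ m ∧ q ^ 2 ∣ u)) (t : ℕ)
    (ht : 0 < t) (v : ℝ)
    (hv : v = if T.Infinite then 1 else ∑ j ∈ Finset.Icc t T.ncard, (T.ncard.choose j : ℝ) *
      (cst K F ^ ((2 ^ r - 1) * Module.finrank K F)) ^ j *
        (1 - cst K F ^ ((2 ^ r - 1) * Module.finrank K F)) ^ (T.ncard - j))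
    (ε : ℝ) (hε : 0 < ε) :
    ∀ᶠ X : ℝ in Filter.atTop, 1 - ε ≤
      (Nat.card {A : 𝓞 K // (Squarefree A ∧ m ∣ A - u ∧ |Algebra.norm ℤ A| ≤ X) ∧
        (v - ε) * (Nat.card {N : IntermediateField K (AlgebraicClosure K) //
          N ∈ Ext K 2 r ∧ Unr A N} : ℝ) ≤
          Nat.card {N : IntermediateField K (AlgebraicClosure K) // N ∈ Ext K 2 r ∧ Unr A N ∧
            t ≤ {δ ∈ T | PropM (tw E K δ) F N}.encard}} : ℝ) /
        (Nat.card {A : 𝓞 K // Squarefree A ∧ m ∣ A - u ∧ |Algebra.norm ℤ A| ≤ X} : ℝ) := by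
  by_cases hI : T.Infinite
  · have h4 : E.a₄ ≠ 0 := by
      intro h4
      apply hΔ
      obtain ⟨h1, h3, h6⟩ := hE
      simp only [WeierstrassCurve.Δ, WeierstrassCurve.b₂, WeierstrassCurve.b₄, WeierstrassCurve.b₆,
        WeierstrassCurve.b₈, h1, h3, h4, h6]
      ring
    obtain ⟨T', hTT, hTI, hsep⟩ := Pool.Agent.Lib.MP_1a91b9_ntSP.inf_sep2 (F := F) h4 h0 hI (hT hI)
    rw [if_pos hI] at hv
    subst hv
    have h := fin_ram K hK E hE hΔ j D hjD hj hD l hl F hF r T' (fun h => h0 (hTT h)) hsep n m u hm hu t ht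
      1 (if_pos hTI).symm ε hε
    filter_upwards [h] with X hX
    refine hX.trans (F4_ratio fun A _ hA => F4_inner (fun N hN => hN.trans (Set.encard_le_encard ?_)) hA)
    exact fun δ hδ => ⟨hTT hδ.1, hδ.2⟩
  · exact fin_ram K hK E hE hΔ j D hjD hj hD l hl F hF r T h0 (hT' (Set.not_infinite.1 hI)) n m u hm hu t ht
      v hv ε hε

end Pool.Agent.Lib.MP_1a91b9_ntRL
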