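import Pool.Agent.Lib.MP_1a91b9_ntRL.Fin4
import Pool.Agent.Lib.MP_1a91b9_ntQH.R4.Bas

/-!
# MP_1a91b9_nt (the fields unramified outside `2A`): the curve of rank two over `ℚ(i)`
-/

set_option autoImplicit false

namespace Pool.Agent.Lib.MP_1a91b9_ntRL

open NumberField
open Pool.Agent.Lib.MP_1a91b9_ntDF (Ext RelBSD)
open Pool.Agent.Lib.MP_1a91b9_ntQH.R4 (Rk2 E2 E2_map rk2_K rk2_up)

open Classical in
/-- The property (A) of `F' / F` for the curve `E` over `K`. -/
def NoNew5 {K : Type} [Field K] (E : WeierstrassCurve K) (F F' : Type) [Field F] [Algebra K F]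
    [Field F'] [NumberField F'] [Algebra F F'] : Prop :=
  (∀ x' y' : F', ((E.baseChange F).baseChange F').toAffine.Equation x' y' →
    ∃ x y : F, algebraMap F F' x = x' ∧ algebraMap F F' y = y') ∧
  (Module.finrank K F = 1 → E = ⟨0, 4, 0, 2, 0⟩ ∨ E = ⟨0, 0, 0, -2, 0⟩ →
    (∃ h : ℂ → ℂ, Differentiable ℂ h ∧
      (∀ s : ℂ, 3 / 2 < s.re → h s = ((E.baseChange F).baseChange F').LSeries s) ∧
      analyticOrderAt h 1 = 2) ∧
    Module.finrank ℤ ((E.baseChange F).baseChange F').toAffine.Point = 2)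

/-- **The property `M` of the extension `N` of `K`**. -/
def PropM5 {K : Type} [Field K] [NumberField K] (E : WeierstrassCurve K) (F : Type) [Field F]
    [NumberField F] [Algebra K F] (N : Type) [Field N] [Algebra K N] : Prop :=
  ∀ (M : Type) [Field M] [NumberField M] [Algebra K M] [Algebra F M] [IsScalarTower K F M]
    [Algebra N M] [IsScalarTower K N M],
    IntermediateField.adjoin F (Set.range (algebraMap N M)) = ⊤ →
    Module.finrank F M = Module.finrank K N ∧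
    ∀ (F' : Type) [Field F'] [NumberField F'] [Algebra K F'] [Algebra F F'] [IsScalarTower K F F']
      [Algebra F' M] [IsScalarTower F F' M],
      NoNew5 E F F' ∧
      (∃ g : ℂ → ℂ, Differentiable ℂ g ∧ g 1 ≠ 0 ∧ ∀ s : ℂ, 3 / 2 < s.re →
        (E.baseChange F').LSeries s = (E.baseChange F).LSeries s * g s) ∧
      (LNonzero (E.baseChange F) ∨ (Module.finrank K F = 1 ∧ E = ⟨0, 0, 0, 1, 0⟩) →
        PropZ K (E.baseChange F')) ∧
      (∀ (F'' : Type) [Field F''] [NumberField F''] [Algebra F F''] [Algebra F' F'']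
        [IsScalarTower F F' F''] [Algebra F'' M] [IsScalarTower F' F'' M],
        Module.finrank F' F'' ≠ 1 →
        ∃ S : Finset ℕ, ∀ (q : ℕ) [Fact q.Prime], q ∉ S →
          RelBSD q (E.baseChange F') ((E.baseChange F').baseChange F'')) ∧
      ∀ e : K, (∃ x : N, x ^ 2 = algebraMap K N e) → (¬ ∃ y : F', y ^ 2 = algebraMap K F' e) →
        PropR E F' e

/-- Order and rank are two over the extensions without new points and new zeros. -/
private theorem F5_up {K : Type} [Field K] [NumberField K] (hK : Module.finrank ℚ K = 2) {i : K}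
    (hi : i ^ 2 = -1) {E : WeierstrassCurve K} (hE : E = ⟨0, 0, 0, -2, 0⟩) {F F' : Type} [Field F] [NumberField F]
    [Algebra K F] [Field F'] [NumberField F'] [Algebra K F'] [Algebra F F'] [IsScalarTower K F F']
    (h1 : Module.finrank K F = 1)
    (hp : ∀ x' y' : F', ((E.baseChange F).baseChange F').toAffine.Equation x' y' →
      ∃ x y : F, algebraMap F F' x = x' ∧ algebraMap F F' y = y')
    (hg : ∃ g : ℂ → ℂ, Differentiable ℂ g ∧ g 1 ≠ 0 ∧ ∀ s : ℂ, 3 / 2 < s.re →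
        (E.baseChange F').LSeries s = (E.baseChange F).LSeries s * g s) :
    Rk2 ((E.baseChange F).baseChange F') := by
  subst hE
  have h2 : Rk2 (E2 K) := rk2_K hK hi
  have h3 : Rk2 (E2 F) :=
    h2.equiv (RingEquiv.ofBijective (algebraMap K F)
      (Module.Free.bijective_algebraMap_of_finrank_eq_one h1))
  have e1 : (⟨0, 0, 0, -2, 0⟩ : WeierstrassCurve K).baseChange F = E2 F := E2_map (algebraMap K F)
  have e2 : (⟨0, 0, 0, -2, 0⟩ : WeierstrassCurve K).baseChange F' = E2 F' := E2_map (algebraMap K F')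
  have e3 : (E2 F).baseChange F' = E2 F' := E2_map (algebraMap F F')
  rw [e1] at hp hg ⊢
  rw [e2, ← e3] at hg
  exact rk2_up h3 hp hg

/-- **The property with the curve of rank two.** -/
private theorem F5_prop {K : Type} [Field K] [NumberField K] (hK : Module.finrank ℚ K = 2)
    {E : WeierstrassCurve K} (hi : E = ⟨0, 0, 0, -2, 0⟩ → ∃ i : K, i ^ 2 = -1) {F : Type} [Field F]
    [NumberField F] [Algebra K F] {N : Type} [Field N] [Algebra K N] (h : PropM E F N) :
    PropM5 E F N := by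
  intro M _ _ _ _ _ _ _ hM
  obtain ⟨h1, h2⟩ := h M hM
  refine ⟨h1, ?_⟩
  intro F' _ _ _ _ _ _ _
  obtain ⟨h3, h4, h5, h6, h7⟩ := h2 F'
  refine ⟨⟨h3.1, fun hF => ?_⟩, h4, h5, h6, h7⟩
  rintro (h8 | h8)
  · exact h3.2 hF h8
  · obtain ⟨i, hi⟩ := hi h8
    exact F5_up hK hi h8 hF h3.1 h4

/-- The field contains a square root of `-1`. -/
private theorem F5_i {K : Type} [Field K] [NumberField K] {E : WeierstrassCurve K}
    (hE : E.a₁ = 0 ∧ E.a₃ = 0 ∧ E.a₆ = 0) (hΔ : E.Δ ≠ 0) {j D : ℤ}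
    (hjD : (j, D) ∈ [(0, -3), (54000, -3), (-12288000, -3), (1728, -4), (287496, -4), (-3375, -7),
      (16581375, -7), (8000, -8), (-32768, -11), (-884736, -19), (-884736000, -43),
      (-147197952000, -67), (-262537412640768000, -163)])
    (hj : E.c₄ ^ 3 = j * E.Δ) (hD : ∃ s : K, s ^ 2 = D) {δ : K} (hδ : δ ≠ 0)
    (h : tw E K δ = ⟨0, 0, 0, -2, 0⟩) : ∃ i : K, i ^ 2 = -1 := by
  obtain ⟨h1, h3, h6⟩ := hE
  obtain ⟨s, hs⟩ := hD
  have h2 : E.a₂ = 0 := by
    have h5 := congrArg WeierstrassCurve.a₂ h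
    have h6 : E.a₂ * δ = 0 := h5
    exact (mul_eq_zero.1 h6).resolve_right hδ
  have hc : E.c₄ ^ 3 = 1728 * E.Δ := by
    unfold WeierstrassCurve.c₄ WeierstrassCurve.Δ WeierstrassCurve.b₂ WeierstrassCurve.b₄
      WeierstrassCurve.b₆ WeierstrassCurve.b₈
    rw [h1, h2, h3, h6]
    ring
  have hj1 : ((j : ℤ) : K) = ((1728 : ℤ) : K) := by
    push_cast
    exact mul_right_cancel₀ hΔ (hj.symm.trans hc)
  have hj2 : j = 1728 := by exact_mod_cast hj1
  subst hj2
  have hD : D = -4 := by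
    simp only [List.mem_cons, Prod.mk.injEq, List.not_mem_nil, or_false] at hjD
    omega
  subst hD
  refine ⟨s / 2, ?_⟩
  rw [div_pow, hs]
  push_cast
  norm_num

private theorem F5_ratio {α : Type*} {P Q Q' : α → Prop} (h : ∀ a, P a → Q' a → Q a) :
    (Nat.card {a // P a ∧ Q' a} : ℝ) / (Nat.card {a // P a} : ℝ) ≤
      (Nat.card {a // P a ∧ Q a} : ℝ) / (Nat.card {a // P a} : ℝ) := by
  rcases finite_or_infinite {a // P a} with hf | hi
  · have h1 : Finite {a // P a ∧ Q a} :=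
      Finite.of_injective (fun a : {a // P a ∧ Q a} => (⟨a.1, a.2.1⟩ : {a // P a})) fun a b hab => by
        have h := congrArg Subtype.val hab
        exact Subtype.ext h
    have h2 : Nat.card {a // P a ∧ Q' a} ≤ Nat.card {a // P a ∧ Q a} :=
      Nat.card_le_card_of_injective
        (fun a : {a // P a ∧ Q' a} => (⟨a.1, a.2.1, h a.1 a.2.1 a.2.2⟩ : {a // P a ∧ Q a})) fun a b hab => by
        have h := congrArg Subtype.val hab
        exact Subtype.ext h
    have h3 : (Nat.card {a // P a ∧ Q' a} : ℝ) ≤ (Nat.card {a // P a ∧ Q a} : ℝ) := by exact_mod_cast h2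
    exact div_le_div_of_nonneg_right h3 (Nat.cast_nonneg _)
  · rw [Nat.card_eq_zero_of_infinite (α := {a // P a}), Nat.cast_zero, div_zero, div_zero]

private theorem F5_inner {α : Type*} {P R Q Q' : α → Prop} {v : ℝ} (h : ∀ a, Q' a → Q a)
    (h1 : v * (Nat.card {a // P a ∧ R a} : ℝ) ≤ (Nat.card {a // P a ∧ R a ∧ Q' a} : ℝ)) :
    v * (Nat.card {a // P a ∧ R a} : ℝ) ≤ (Nat.card {a // P a ∧ R a ∧ Q a} : ℝ) := by
  rcases finite_or_infinite {a // P a ∧ R a} with hf | hi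
  · have h2 : Finite {a // P a ∧ R a ∧ Q a} :=
      Finite.of_injective (fun a : {a // P a ∧ R a ∧ Q a} => (⟨a.1, a.2.1, a.2.2.1⟩ : {a // P a ∧ R a}))
        fun a b hab => by
          have h := congrArg Subtype.val hab
          exact Subtype.ext h
    have h3 : Nat.card {a // P a ∧ R a ∧ Q' a} ≤ Nat.card {a // P a ∧ R a ∧ Q a} :=
      Nat.card_le_card_of_injective
        (fun a : {a // P a ∧ R a ∧ Q' a} =>
          (⟨a.1, a.2.1, a.2.2.1, h a.1 a.2.2.2⟩ : {a // P a ∧ R a ∧ Q a})) fun a b hab => by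
        have h := congrArg Subtype.val hab
        exact Subtype.ext h
    have h4 : (Nat.card {a // P a ∧ R a ∧ Q' a} : ℝ) ≤ (Nat.card {a // P a ∧ R a ∧ Q a} : ℝ) := by
      exact_mod_cast h3
    exact h1.trans h4
  · rw [Nat.card_eq_zero_of_infinite (α := {a // P a ∧ R a}), Nat.cast_zero, mul_zero]
    exact Nat.cast_nonneg _

open Classical in
/-- **The law for the fields unramified outside `2A`**, with the curves of rank two. -/
theorem fin_ram5 (K : Type) [Field K] [NumberField K] (hK : Module.finrank ℚ K = 2)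
    (E : WeierstrassCurve K) (hE : E.a₁ = 0 ∧ E.a₃ = 0 ∧ E.a₆ = 0) (hΔ : E.Δ ≠ 0) (j D : ℤ)
    (hjD : (j, D) ∈ [(0, -3), (54000, -3), (-12288000, -3), (1728, -4), (287496, -4), (-3375, -7),
      (16581375, -7), (8000, -8), (-32768, -11), (-884736, -19), (-884736000, -43),
      (-147197952000, -67), (-262537412640768000, -163)])
    (hj : E.c₄ ^ 3 = j * E.Δ) (hD : ∃ s : K, s ^ 2 = D)
    (l : ℕ) (hl : l = 2 ∨ l = 4 ∧ ∃ i : K, i ^ 2 = -1)
    (F : Type) [Field F] [NumberField F] [Algebra K F]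
    (hF : IntermediateField.adjoin K {x : F | ∃ c : K, x ^ l = algebraMap K F c} = ⊤) (r : ℕ)
    (T : Set K) (h0 : 0 ∉ T)
    (hT : T.Infinite → ∀ δ ∈ T, ∀ δ' ∈ T, δ ≠ δ' → ∀ x : K, x ^ 2 * δ' ≠ δ)
    (hT' : T.Finite → ∀ δ ∈ T, ∀ δ' ∈ T, δ ≠ δ' → ∀ e ∈ ({1, -1, E.a₄, -E.a₄} : Set K), ∀ x : F,
      x ^ 2 * algebraMap K F δ' ≠ algebraMap K F (e * δ))
    (n : ℕ) (m u : 𝓞 K) (hm : m ∣ 2 ^ n) (hu : ∀ q, Prime q → ¬ (q ^ 2 ∣ m ∧ q ^ 2 ∣ u)) (t : ℕ)
    (ht : 0 < t) (v : ℝ)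
    (hv : v = if T.Infinite then 1 else ∑ j ∈ Finset.Icc t T.ncard, (T.ncard.choose j : ℝ) *
      (cst K F ^ ((2 ^ r - 1) * Module.finrank K F)) ^ j *
        (1 - cst K F ^ ((2 ^ r - 1) * Module.finrank K F)) ^ (T.ncard - j))
    (ε : ℝ) (hε : 0 < ε) :
    ∀ᶠ X : ℝ in Filter.atTop, 1 - ε ≤
      (Nat.card {A : 𝓞 K // (Squarefree A ∧ m ∣ A - u ∧ |Algebra.norm ℤ A| ≤ X) ∧
        (v - ε) * (Nat.card {N : IntermediateField K (AlgebraicClosure K) //
          N ∈ Ext K 2 r ∧ Unr A N} : ℝ) ≤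
          Nat.card {N : IntermediateField K (AlgebraicClosure K) // N ∈ Ext K 2 r ∧ Unr A N ∧
            t ≤ {δ ∈ T | PropM5 (tw E K δ) F N}.encard}} : ℝ) /
        (Nat.card {A : 𝓞 K // Squarefree A ∧ m ∣ A - u ∧ |Algebra.norm ℤ A| ≤ X} : ℝ) := by
  filter_upwards [fin_ram4 K hK E hE hΔ j D hjD hj hD l hl F hF r T h0 hT hT' n m u hm hu t ht v hv ε hε]
    with X hX
  refine hX.trans (F5_ratio fun A _ hA => F5_inner (fun N hN => hN.trans (Set.encard_le_encard ?_)) hA)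
  intro δ hδ
  have hδ0 : δ ≠ 0 := fun h => h0 (h ▸ hδ.1)
  exact ⟨hδ.1, F5_prop hK (fun h => F5_i hE hΔ hjD hj hD hδ0 h) hδ.2⟩

end Pool.Agent.Lib.MP_1a91b9_ntRL
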