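import Pool.Agent.Lib.MP_1a91b9_ntRL.C1
import Pool.Agent.Lib.MP_1a91b9_ntRL.C2
import Pool.Agent.Lib.MP_1a91b9_ntRL.C3
import Pool.Agent.Lib.MP_1a91b9_ntDF.CF
import Pool.Agent.Lib.MP_1a91b9_ntMQ.RT0

/-!
# MP_1a91b9_nt (the fields unramified outside `2A`): from the tuples to the fields
-/

set_option autoImplicit false

namespace Pool.Agent.Lib.MP_1a91b9_ntRL

open NumberField IsDedekindDomain
open Pool.Agent.Lib.MP_1a91b9_ntDF (Pf cK NK Ext fib_count)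
open Pool.Agent.Lib.MP_1a91b9_ntMQ (DivGI)

private theorem L1_pf {K : Type} [Field K] [NumberField K] {x : 𝓞 K} (h : Pf 2 x) : x ≠ 0 := by
  rintro rfl
  exact not_isUnit_zero (h 0 (dvd_zero _))

/-- The number of the tuples of divisors. -/
private theorem L1_pi {R : Type} [CommRing R] (r : ℕ) (A : R) :
    Nat.card {d : Fin r → R // (∀ i, d i ∣ A) ∧ True} = Nat.card {d : R // d ∣ A} ^ r := by
  have h1 : Nat.card {d : Fin r → R // (∀ i, d i ∣ A) ∧ True} =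
      Nat.card (Fin r → {d : R // d ∣ A}) := by
    refine Nat.card_congr ?_
    exact ⟨fun d i => ⟨d.1 i, d.2.1 i⟩, fun d => ⟨fun i => (d i).1, fun i => (d i).2, trivial⟩,
      fun d => rfl, fun d => rfl⟩
  rw [h1, Nat.card_fun, Nat.card_fin]

/-- The comparison for one number `A`. -/
private theorem L1_one {K : Type} [Field K] [NumberField K] [IsPrincipalIdealRing (𝓞 K)]
    [Finite (𝓞 K)ˣ] {r : ℕ} {R : Finset (Fin r → 𝓞 K)} {A : 𝓞 K}
    (hR : ∃ R' : Finset (Fin r → 𝓞 K), R' ⊆ R ∧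
        {e : Fin r → 𝓞 K | (∀ i, Pf 2 (e i)) ∧ Sup A e}.Finite ∧
        ∀ Q : (Fin r → 𝓞 K) → Prop,
          Nat.card {e : Fin r → 𝓞 K // ((∀ i, Pf 2 (e i)) ∧ Sup A e) ∧ Q e} =
            ∑ ρ ∈ R', Nat.card {d : Fin r → 𝓞 K // (∀ i, d i ∣ A) ∧ Q fun i => ρ i * d i})
    {P : IntermediateField K (AlgebraicClosure K) → Prop} {v : ℝ}
    (h : ∀ ρ ∈ R, v * (Nat.card {d : 𝓞 K // d ∣ A} : ℝ) ^ r ≤
      Nat.card {d : Fin r → 𝓞 K // (∀ i, d i ∣ A) ∧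
        (Module.finrank K (NK 2 (cK K fun i => ρ i * d i)) = 2 ^ r ∧
          P (NK 2 (cK K fun i => ρ i * d i)))}) :
    v * (Nat.card {N : IntermediateField K (AlgebraicClosure K) // N ∈ Ext K 2 r ∧ Unr A N} : ℝ) ≤
      Nat.card {N : IntermediateField K (AlgebraicClosure K) // N ∈ Ext K 2 r ∧ Unr A N ∧ P N} := by
  rcases lt_or_ge v 0 with hv | hv
  · exact (mul_nonpos_of_nonpos_of_nonneg hv.le (Nat.cast_nonneg _)).trans (Nat.cast_nonneg _)
  have hζ : IsPrimitiveRoot (-1 : K) 2 := IsPrimitiveRoot.neg_one 0 (by norm_num)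
  obtain ⟨w, hw0, hw⟩ := fib_count K hζ r
  obtain ⟨R', hR', hfin, hc⟩ := hR
  -- unramified
  have hiff : ∀ e : Fin r → 𝓞 K, (∀ i, Pf 2 (e i)) → (Unr A (NK 2 (cK K e)) ↔ Sup A e) := fun e he =>
    ⟨fun h => of_unr he h, fun h => unr_of (fun i => L1_pf (he i)) h⟩
  -- all the tuples
  have c1 := hc fun _ => True
  simp only [L1_pi] at c1
  rw [Finset.sum_const, smul_eq_mul] at c1
  have c2 := hc fun e => Module.finrank K (NK 2 (cK K e)) = 2 ^ r ∧ P (NK 2 (cK K e))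
  -- the fields
  have f1 := hw fun N => Unr A N
  have f2 := hw fun N => Unr A N ∧ P N
  have g1 : Nat.card {d : Fin r → 𝓞 K // (∀ i, Pf 2 (d i)) ∧
        Module.finrank K (NK 2 (cK K d)) = 2 ^ r ∧ Unr A (NK 2 (cK K d))} ≤
      Nat.card {e : Fin r → 𝓞 K // ((∀ i, Pf 2 (e i)) ∧ Sup A e) ∧ True} := by
    have k1 : {d : Fin r → 𝓞 K | (∀ i, Pf 2 (d i)) ∧
        Module.finrank K (NK 2 (cK K d)) = 2 ^ r ∧ Unr A (NK 2 (cK K d))} ⊆
        {e : Fin r → 𝓞 K | ((∀ i, Pf 2 (e i)) ∧ Sup A e) ∧ True} := by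
      rintro d ⟨h1, -, h3⟩
      exact ⟨⟨h1, (hiff d h1).1 h3⟩, trivial⟩
    have k2 : {e : Fin r → 𝓞 K | ((∀ i, Pf 2 (e i)) ∧ Sup A e) ∧ True}.Finite := by
      refine hfin.subset ?_
      rintro e ⟨h1, -⟩
      exact h1
    exact Set.ncard_le_ncard k1 k2
  have g2 : Nat.card {d : Fin r → 𝓞 K // (∀ i, Pf 2 (d i)) ∧
        Module.finrank K (NK 2 (cK K d)) = 2 ^ r ∧ Unr A (NK 2 (cK K d)) ∧ P (NK 2 (cK K d))} =
      Nat.card {e : Fin r → 𝓞 K // ((∀ i, Pf 2 (e i)) ∧ Sup A e) ∧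
        Module.finrank K (NK 2 (cK K e)) = 2 ^ r ∧ P (NK 2 (cK K e))} := by
    refine Nat.card_congr (Equiv.subtypeEquivRight fun e => ?_)
    constructor
    · rintro ⟨h1, h2, h3, h4⟩
      exact ⟨⟨h1, (hiff e h1).1 h3⟩, h2, h4⟩
    · rintro ⟨⟨h1, h3⟩, h2, h4⟩
      exact ⟨h1, h2, (hiff e h1).2 h3, h4⟩
  have s1 : (R'.card : ℝ) * (v * (Nat.card {d : 𝓞 K // d ∣ A} : ℝ) ^ r) ≤
      (Nat.card {e : Fin r → 𝓞 K // ((∀ i, Pf 2 (e i)) ∧ Sup A e) ∧
        Module.finrank K (NK 2 (cK K e)) = 2 ^ r ∧ P (NK 2 (cK K e))} : ℝ) := by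
    rw [c2]
    push_cast
    rw [← nsmul_eq_mul]
    exact Finset.card_nsmul_le_sum _ _ _ fun ρ hρ => h ρ (hR' hρ)
  rw [← g2, f2] at s1
  rw [f1, c1] at g1
  have g1' : (w : ℝ) * (Nat.card {N : IntermediateField K (AlgebraicClosure K) //
      N ∈ Ext K 2 r ∧ Unr A N} : ℝ) ≤ (R'.card : ℝ) * (Nat.card {d : 𝓞 K // d ∣ A} : ℝ) ^ r := by
    exact_mod_cast g1
  push_cast at s1
  have hw' : (0 : ℝ) < w := by exact_mod_cast hw0
  refine le_of_mul_le_mul_left ?_ hw'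
  refine le_trans ?_ s1
  calc (w : ℝ) * (v * (Nat.card {N : IntermediateField K (AlgebraicClosure K) //
      N ∈ Ext K 2 r ∧ Unr A N} : ℝ)) = v * ((w : ℝ) *
        (Nat.card {N : IntermediateField K (AlgebraicClosure K) // N ∈ Ext K 2 r ∧ Unr A N} : ℝ)) := by
        ring
    _ ≤ v * ((R'.card : ℝ) * (Nat.card {d : 𝓞 K // d ∣ A} : ℝ) ^ r) := mul_le_mul_of_nonneg_left g1' hv
    _ = _ := by ring

/-- The union of finitely many small sets. -/
private theorem L1_union {α τ : Type} {A : ℝ → Set α} (hfin : ∀ X, (A X).Finite) (R : Finset τ)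
    (hR : R.Nonempty) {G : τ → α → Prop} {H : α → Prop} (hGH : ∀ X, ∀ a ∈ A X, (∀ ρ ∈ R, G ρ a) → H a)
    {ε : ℝ} (hε : 0 < ε)
    (h : ∀ ρ ∈ R, ∀ᶠ X : ℝ in Filter.atTop, 1 - min ε (1 / 2) / R.card ≤
      (Nat.card {a : α // a ∈ A X ∧ G ρ a} : ℝ) / (Nat.card {a : α // a ∈ A X} : ℝ)) :
    ∀ᶠ X : ℝ in Filter.atTop, 1 - ε ≤
      (Nat.card {a : α // a ∈ A X ∧ H a} : ℝ) / (Nat.card {a : α // a ∈ A X} : ℝ) := by
  classical
  have hc : (0 : ℝ) < R.card := by exact_mod_cast hR.card_pos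
  filter_upwards [(Filter.eventually_all_finset R).2 h] with X hX
  obtain ⟨S, hS⟩ : ∃ S : Finset α, S = (hfin X).toFinset := ⟨_, rfl⟩
  have e0 : ∀ Q : α → Prop, Nat.card {a : α // a ∈ A X ∧ Q a} = (S.filter Q).card := by
    intro Q
    have h1 : Nat.card {a : α // a ∈ A X ∧ Q a} = ({a | a ∈ A X ∧ Q a} : Set α).ncard := rfl
    rw [h1, ← Set.ncard_coe_finset]
    congr 1
    ext a
    rw [Finset.coe_filter, hS]
    simp only [Set.mem_ofPred_eq, Set.Finite.mem_toFinset]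
  have e1 : Nat.card {a : α // a ∈ A X} = S.card := by
    have h1 : Nat.card {a : α // a ∈ A X} = (A X).ncard := rfl
    rw [h1, ← Set.ncard_coe_finset, hS, Set.Finite.coe_toFinset]
  simp only [e0, e1] at hX ⊢
  have hm : 0 < min ε (1 / 2) := lt_min hε (by norm_num)
  have hS0 : (0 : ℝ) < S.card := by
    obtain ⟨ρ, hρ⟩ := hR
    have h1 := hX ρ hρ
    by_contra h2
    have h3 : (S.card : ℝ) = 0 := le_antisymm (not_lt.1 h2) (Nat.cast_nonneg _)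
    rw [h3, div_zero] at h1
    have h4 : min ε (1 / 2) / R.card ≤ 1 / 2 := by
      rw [div_le_iff₀ hc]
      have h5 : (1 : ℝ) ≤ R.card := by exact_mod_cast Finset.card_pos.2 ⟨ρ, hρ⟩
      have h6 : min ε (1 / 2) ≤ 1 / 2 := min_le_right _ _
      nlinarith
    linarith
  have hbad : ∀ ρ ∈ R, ((S.filter fun a => ¬ G ρ a).card : ℝ) ≤ min ε (1 / 2) / R.card * S.card := by
    intro ρ hρ
    have h1 := hX ρ hρ
    rw [le_div_iff₀ hS0] at h1
    have h2 : ((S.filter fun a => G ρ a).card : ℝ) + ((S.filter fun a => ¬ G ρ a).card : ℝ) = S.card := by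
      exact_mod_cast Finset.card_filter_add_card_filter_not (s := S) (fun a => G ρ a)
    linarith
  have hsub : S.filter (fun a => ¬ H a) ⊆ R.biUnion fun ρ => S.filter fun a => ¬ G ρ a := by
    intro a ha
    rw [Finset.mem_filter] at ha
    rw [Finset.mem_biUnion]
    by_contra hne
    refine ha.2 (hGH X a ?_ fun ρ hρ => ?_)
    · have h1 := ha.1
      rw [hS, Set.Finite.mem_toFinset] at h1
      exact h1
    · by_contra h3
      exact hne ⟨ρ, hρ, Finset.mem_filter.2 ⟨ha.1, h3⟩⟩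
  have h5 : ((S.filter fun a => ¬ H a).card : ℝ) ≤ min ε (1 / 2) * S.card := by
    have h6 : ((S.filter fun a => ¬ H a).card : ℝ) ≤
        ∑ ρ ∈ R, ((S.filter fun a => ¬ G ρ a).card : ℝ) := by
      exact_mod_cast (Finset.card_le_card hsub).trans Finset.card_biUnion_le
    refine h6.trans ((Finset.sum_le_card_nsmul R _ _ hbad).trans (le_of_eq ?_))
    rw [nsmul_eq_mul]
    field_simp
  have h7 : ((S.filter fun a => H a).card : ℝ) + ((S.filter fun a => ¬ H a).card : ℝ) = S.card := by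
    exact_mod_cast Finset.card_filter_add_card_filter_not (s := S) (fun a => H a)
  rw [le_div_iff₀ hS0]
  have h8 : min ε (1 / 2) * (S.card : ℝ) ≤ ε * S.card :=
    mul_le_mul_of_nonneg_right (min_le_left _ _) hS0.le
  linarith

/-- **From the tuples to the fields.** -/
theorem law_ram {K : Type} [Field K] [NumberField K] [IsPrincipalIdealRing (𝓞 K)] [Finite (𝓞 K)ˣ]
    (hfin : ∀ X : ℝ, {D : 𝓞 K | Squarefree D ∧ |Algebra.norm ℤ D| ≤ X}.Finite) (r : ℕ) (m u : 𝓞 K)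
    (P : IntermediateField K (AlgebraicClosure K) → Prop) (v : ℝ)
    (h : ∀ ρ : Fin r → 𝓞 K, (∀ i, ρ i ≠ 0) → DivGI (𝓞 K) r m u (fun d =>
      Module.finrank K (NK 2 (cK K fun i => ρ i * d i)) = 2 ^ r ∧
        P (NK 2 (cK K fun i => ρ i * d i))) v)
    (ε : ℝ) (hε : 0 < ε) :
    ∀ᶠ X : ℝ in Filter.atTop, 1 - ε ≤
      (Nat.card {A : 𝓞 K // (Squarefree A ∧ m ∣ A - u ∧ |Algebra.norm ℤ A| ≤ X) ∧
        (v - ε) * (Nat.card {N : IntermediateField K (AlgebraicClosure K) //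
          N ∈ Ext K 2 r ∧ Unr A N} : ℝ) ≤
          Nat.card {N : IntermediateField K (AlgebraicClosure K) //
            N ∈ Ext K 2 r ∧ Unr A N ∧ P N}} : ℝ) /
        (Nat.card {A : 𝓞 K // Squarefree A ∧ m ∣ A - u ∧ |Algebra.norm ℤ A| ≤ X} : ℝ) := by
  classical
  obtain ⟨R₀, hR0, hR⟩ := sup_count K r
  obtain ⟨R, hRd⟩ : ∃ R, R = insert (fun _ => (1 : 𝓞 K)) R₀ := ⟨_, rfl⟩
  have hRn : R.Nonempty := by
    rw [hRd]
    exact Finset.insert_nonempty _ _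
  have hRne : ∀ ρ ∈ R, ∀ i, ρ i ≠ 0 := by
    intro ρ hρ i
    rw [hRd, Finset.mem_insert] at hρ
    rcases hρ with rfl | hρ
    · exact one_ne_zero
    · exact hR0 ρ hρ i
  have hc : (0 : ℝ) < R.card := by exact_mod_cast hRn.card_pos
  obtain ⟨ε', hε'⟩ : ∃ ε' : ℝ, ε' = min ε (1 / 2) / R.card := ⟨_, rfl⟩
  have hm : 0 < min ε (1 / 2) := lt_min hε (by norm_num)
  have hε0 : 0 < ε' := by
    rw [hε']
    exact div_pos hm hc
  have hεε : ε' ≤ ε := by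
    rw [hε', div_le_iff₀ hc]
    have h1 : (1 : ℝ) ≤ R.card := by exact_mod_cast hRn.card_pos
    have h2 : min ε (1 / 2) ≤ ε := min_le_left _ _
    nlinarith
  refine L1_union (A := fun X => {A : 𝓞 K | Squarefree A ∧ m ∣ A - u ∧ |Algebra.norm ℤ A| ≤ X})
    (fun X => (hfin X).subset ?_) R hRn (G := fun ρ A =>
      (v - ε') * (Nat.card {d : 𝓞 K // d ∣ A} : ℝ) ^ r ≤
      Nat.card {d : Fin r → 𝓞 K // (∀ i, d i ∣ A) ∧
        (Module.finrank K (NK 2 (cK K fun i => ρ i * d i)) = 2 ^ r ∧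
          P (NK 2 (cK K fun i => ρ i * d i)))}) (fun X A hA hG => ?_) hε (fun ρ hρ => ?_)
  · rintro A ⟨h1, -, h3⟩
    exact ⟨h1, h3⟩
  · obtain ⟨R', hR', h2, h3⟩ := hR A hA.1
    have h4 := L1_one ⟨R', hR'.trans (by rw [hRd]; exact Finset.subset_insert _ _), h2, h3⟩ hG
    refine le_trans (mul_le_mul_of_nonneg_right ?_ (Nat.cast_nonneg _)) h4
    linarith
  · rw [← hε']
    filter_upwards [h ρ (hRne ρ hρ) 0 ε' hε0] with X hX
    refine hX.trans (le_of_eq ?_)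
    congr 2
    refine Nat.card_congr (Equiv.subtypeEquivRight fun A => ?_)
    constructor
    · rintro ⟨h1, h2, h3, -, h5⟩
      exact ⟨⟨h1, h2, h3⟩, h5⟩
    · rintro ⟨⟨h1, h2, h3⟩, h5⟩
      exact ⟨h1, h2, h3, Nat.zero_le _, h5⟩

end Pool.Agent.Lib.MP_1a91b9_ntRL
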