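import Pool.Agent.Lib.MP_1a91b9_ntRL.R2

/-!
# MP_1a91b9_nt (the fields unramified outside `2A`): the law for the rank zero twists, `p = 2`
-/

set_option autoImplicit false

namespace Pool.Agent.Lib.MP_1a91b9_ntRL

open NumberField WeierstrassCurve
open Pool.Agent.Lib.MP_1a91b9_ntW.J (RkZ)
open Pool.Agent.Lib.MP_1a91b9_ntZ (bn Atl)
open Pool.Agent.Lib.MP_1a91b9_ntMQ
open Pool.Agent.Lib.MP_1a91b9_ntW.J (Cls2 ClsN twd twd_vc twd_crv twd_hasJ hasJ_map Inv2
  cR cS cI cJ to_int crv_disc hasJ_crv_iff)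
open Pool.Agent.Lib.MP_1a91b9_nuI (HasJ)
open Pool.Agent.Lib.MP_1a91b9_ntL (crv)
open Pool.Agent.Lib.MP_1a91b9_ntI (excl1 excl2 excl3 excl4 excl5 excl6 th7 nsf_i nsf_s sf_t np_t
  prime_w emp_t)
open Pool.Agent.Lib.MP_1a91b9_ntY (CMK Pt2)
open Pool.Agent.Lib.MP_1a91b9_ntZ (SepF)
open Pool.Agent.Lib.MP_1a91b9_ntB (crv_zero_cases crv21)

/-! ### The separation -/

/-- `± x` times the product of two different multipliers is not a square in `F`. -/
private def R3_S {K : Type} [Field K] (F : Type) [Field F] [Algebra K F] (x : K) {k : ℕ}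
    (δ : Fin k → K) : Prop :=
  ∀ i j, i ≠ j → (¬ ∃ y : F, y ^ 2 = algebraMap K F (x * (δ i * δ j))) ∧
    ¬ ∃ y : F, y ^ 2 = algebraMap K F (-x * (δ i * δ j))

private theorem R3_congr {K : Type} [Field K] {F : Type} [Field F] [Algebra K F] {x y : K} {k : ℕ}
    {δ : Fin k → K} (h : R3_S F x δ) {z : K} (hz : z ≠ 0)
    (e : y = x * z ^ 2 ∨ y = -(x * z ^ 2)) : R3_S F y δ := by
  have hz' : algebraMap K F z ≠ 0 := (map_ne_zero _).2 hz
  have key : ∀ w : K, (∃ v : F, v ^ 2 = algebraMap K F (w * z ^ 2)) →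
      ∃ v : F, v ^ 2 = algebraMap K F w := by
    rintro w ⟨v, hv⟩
    refine ⟨v / algebraMap K F z, ?_⟩
    rw [div_pow, hv, map_mul, map_pow, mul_div_assoc, div_self (pow_ne_zero 2 hz'), mul_one]
  intro i j hij
  obtain ⟨h1, h2⟩ := h i j hij
  rcases e with rfl | rfl
  · refine ⟨fun h3 => h1 (key _ ?_), fun h3 => h2 (key _ ?_)⟩
    · rwa [mul_right_comm]
    · rwa [mul_right_comm, neg_mul]
  · refine ⟨fun h3 => h2 (key _ ?_), fun h3 => h1 (key _ ?_)⟩
    · rwa [mul_right_comm, neg_mul]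
    · rw [neg_neg] at h3
      rwa [mul_right_comm]

private theorem R3_of_eq {K : Type} [Field K] {F : Type} [Field F] [Algebra K F] {x y : K} {k : ℕ}
    {δ : Fin k → K} (h : R3_S F x δ) {z : K} (hz : z ≠ 0)
    (e : y * z ^ 2 = x ∨ y * z ^ 2 = -x) : R3_S F y δ := by
  refine R3_congr h (inv_ne_zero hz) ?_
  rcases e with e | e
  · left
    rw [← e]
    field_simp
  · right
    rw [← neg_eq_iff_eq_neg.2 e]
    field_simp

private theorem R3_sep {K : Type} [Field K] {F : Type} [Field F] [Algebra K F] {k : ℕ}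
    {δ : Fin k → K} (h0 : ∀ i, δ i ≠ 0) (h1 : R3_S F 1 δ) : SepF K F {1, -1} δ := by
  refine ⟨h0, fun i j hij e he => ?_⟩
  rcases he with rfl | he
  · exact (h1 i j hij).1
  · rw [Set.mem_singleton_iff] at he
    subst he
    exact (h1 i j hij).2

private theorem R3_sep' {K : Type} [Field K] {F : Type} [Field F] [Algebra K F] {k : ℕ}
    {δ : Fin k → K} (h0 : ∀ i, δ i ≠ 0) {b : K} (h1 : R3_S F 1 δ) (h2 : R3_S F b δ) :
    SepF K F {1, b} δ := by
  refine ⟨h0, fun i j hij e he => ?_⟩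
  rcases he with rfl | he
  · exact (h1 i j hij).1
  · rw [Set.mem_singleton_iff] at he
    subst he
    exact (h2 i j hij).1

section
variable {K : Type} [Field K] [NumberField K]

/-- The law for the twists of `W`. -/
private def R3_L (F : Type) [Field F] [NumberField F] [Algebra K F] (r : ℕ) (ρ : Fin r → 𝓞 K) {k : ℕ}
    (δ : Fin k → K) (t : ℕ) (m u : 𝓞 K) (c : ℝ) (W : WeierstrassCurve K) : Prop :=
  DivGI (𝓞 K) r m u (fun d => Atl t fun i => ∀ J : Finset (Fin r), J.Nonempty →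
    RkZ ((twd W (δ i * ((∏ j ∈ J, (ρ j * d j) : 𝓞 K) : K))).map (algebraMap K F))) c

/-- The property of `W`. The condition on the multipliers for the curves `y² = x³ + b x`. -/
private def R3_Q (F : Type) [Field F] [NumberField F] [Algebra K F] (r : ℕ) (ρ : Fin r → 𝓞 K) {k : ℕ}
    (δ : Fin k → K) (t : ℕ) (m u : 𝓞 K) (c : ℝ) (W : WeierstrassCurve K) : Prop :=
  (∀ (C : VariableChange K) (b : K), b ≠ 0 → C • W = crv 0 b → R3_S F b δ) →
    R3_L F r ρ δ t m u c W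

private theorem R3_tw (F : Type) [Field F] [Algebra K F] (a b x : K) :
    (⟨0, algebraMap K F (x * a), 0, algebraMap K F (x ^ 2 * b), 0⟩ : WeierstrassCurve F) =
      (twd (crv a b) x).map (algebraMap K F) := by
  rw [twd_crv]
  exact WeierstrassCurve.ext (map_zero _).symm rfl (map_zero _).symm rfl (map_zero _).symm

/-- the conclusion for the isogenous curve -/
private theorem R3_isg (F : Type) [Field F] [NumberField F] [Algebra K F] {a b : K} {j j' : ℤ}
    (hb : b ≠ 0) (hb' : a ^ 2 - 4 * b ≠ 0) (hj : HasJ (crv a b) j)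
    (hj' : HasJ (crv (-2 * a) (a ^ 2 - 4 * b)) j') (d : K) :
    RkZ ((twd (crv (-2 * a) (a ^ 2 - 4 * b)) d).map (algebraMap K F)) ↔
      RkZ ((twd (crv a b) d).map (algebraMap K F)) := by
  rw [← R3_tw, ← R3_tw]
  by_cases hd : d = 0
  · rw [hd]
    simp only [zero_mul, ne_eq, OfNat.ofNat_ne_zero, not_false_eq_true, zero_pow]
  have e1 : ∀ x y : K, (⟨0, algebraMap K F (d * x), 0, algebraMap K F (d ^ 2 * y), 0⟩ :
      WeierstrassCurve F) = Pool.Agent.Lib.MP_1a91b9_nuI.E2 (algebraMap K F (d * x))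
        (algebraMap K F (d ^ 2 * y)) := fun _ _ => rfl
  have e2 : ∀ x y : K, Pool.Agent.Lib.MP_1a91b9_nuI.E2 (algebraMap K F (d * x))
      (algebraMap K F (d ^ 2 * y)) = (twd (crv x y) d).map (algebraMap K F) := by
    intro x y
    rw [← R3_tw]
    rfl
  have e3 : Pool.Agent.Lib.MP_1a91b9_nuI.E2 (algebraMap K F (d * (-2 * a)))
      (algebraMap K F (d ^ 2 * (a ^ 2 - 4 * b))) =
      Pool.Agent.Lib.MP_1a91b9_nuI.E2 (-2 * algebraMap K F (d * a))
        (algebraMap K F (d * a) ^ 2 - 4 * algebraMap K F (d ^ 2 * b)) := by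
    congr 1
    · simp only [map_mul, map_neg, map_ofNat]
      ring
    · simp only [map_mul, map_sub, map_pow, map_ofNat]
      ring
  have k1 : HasJ (Pool.Agent.Lib.MP_1a91b9_nuI.E2 (algebraMap K F (d * a))
      (algebraMap K F (d ^ 2 * b))) j := by
    rw [e2]
    exact hasJ_map _ (twd_hasJ hj _)
  have k2 : HasJ (Pool.Agent.Lib.MP_1a91b9_nuI.E2 (-2 * algebraMap K F (d * a))
      (algebraMap K F (d * a) ^ 2 - 4 * algebraMap K F (d ^ 2 * b))) j' := by
    rw [← e3, e2]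
    exact hasJ_map _ (twd_hasJ hj' _)
  have k3 : algebraMap K F (d ^ 2 * b) ≠ 0 :=
    (map_ne_zero _).2 (mul_ne_zero (pow_ne_zero 2 hd) hb)
  have k4 : algebraMap K F (d * a) ^ 2 - 4 * algebraMap K F (d ^ 2 * b) ≠ 0 := by
    have h5 : algebraMap K F (d * a) ^ 2 - 4 * algebraMap K F (d ^ 2 * b) =
        algebraMap K F (d ^ 2 * (a ^ 2 - 4 * b)) := by
      simp only [map_mul, map_sub, map_pow, map_ofNat]
      ring
    rw [h5]
    exact (map_ne_zero _).2 (mul_ne_zero (pow_ne_zero 2 hd) hb')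
  rw [e1, e1, e3]
  exact Pool.Agent.Lib.MP_1a91b9_ntY.RkZ.two k3 k4 k1 k2

/-- **The property is invariant.** -/
private theorem R3_inv (F : Type) [Field F] [NumberField F] [Algebra K F] (r : ℕ) (ρ : Fin r → 𝓞 K)
    {k : ℕ} {δ : Fin k → K} (hδ : R3_S F (1 : K) δ) (t : ℕ) (m u : 𝓞 K)
    (c : ℝ) : Inv2 (R3_Q F r ρ δ t m u c : WeierstrassCurve K → Prop) where
  vc := by
    intro W j hj C h1 h0
    have h2 := h1 (fun C' b hb hC' => h0 (C' * C) b hb (by rw [mul_smul]; exact hC'))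
    have e : ∀ x : K, RkZ ((twd (C • W) x).map (algebraMap K F)) =
        RkZ ((twd W x).map (algebraMap K F)) := by
      intro x
      apply propext
      rw [← twd_vc W C, ← WeierstrassCurve.map_variableChange]
      exact Pool.Agent.Lib.MP_1a91b9_ntW.J.RkZ.vc (hasJ_map _ (twd_hasJ hj _)) _
    unfold R3_L at h2 ⊢
    simp only [e] at h2
    exact h2
  isg := by
    intro a b j j' hb hb' hj hj' h1 h0
    have h2 := h1 (fun C' b₀ hb₀ hC' => by
      rcases crv_zero_cases hC' with ⟨ha, z, hz, hbz⟩ | ⟨z, hz⟩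
      · subst ha
        have h3 := h0 1 ((0 : K) ^ 2 - 4 * b) hb' (by rw [one_smul, mul_zero])
        refine R3_of_eq h3 (z := 2 * z) (mul_ne_zero two_ne_zero hz) ?_
        right
        rw [hbz]
        ring
      · have hz0 : z ≠ 0 := by
          rintro rfl
          exact hb₀ (by rw [hz]; ring)
        refine R3_congr hδ hz0 ?_
        right
        rw [hz]
        ring)
    have e : ∀ x : K, RkZ ((twd (crv (-2 * a) (a ^ 2 - 4 * b)) x).map (algebraMap K F)) =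
        RkZ ((twd (crv a b) x).map (algebraMap K F)) := fun x =>
      propext (R3_isg F hb hb' hj hj' x)
    unfold R3_L at h2 ⊢
    simp only [e]
    exact h2

end

/-- square roots are fourth roots -/
private theorem R3_two {K : Type} [Field K] [NumberField K]
    {H : (F : Type) → [Field F] → 𝓞 K → 𝓞 K → Prop} {E : Set K} {a b : K} {c : ℝ}
    (h : DBI K 4 H E a b c) : DBI K 2 H E a b c := by
  intro F _ _ _ hF
  refine h F ?_
  rw [eq_top_iff, ← hF]
  refine IntermediateField.adjoin.mono K _ _ ?_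
  rintro x ⟨a, ha⟩
  refine ⟨a ^ 2, ?_⟩
  rw [map_pow, ← ha]
  ring

/-- the law for the curve, from the law over the extensions -/
private theorem R3_of {K : Type} [Field K] [NumberField K] {l : ℕ}
    {H : (F : Type) → [Field F] → 𝓞 K → 𝓞 K → Prop} {E : Set K} {a b : K} {c : ℝ}
    (h : DBI K l H E a b c) {F : Type} [Field F] [NumberField F] [Algebra K F]
    (hF : IntermediateField.adjoin K {x : F | ∃ c : K, x ^ l = algebraMap K F c} = ⊤)
    {r k : ℕ} {ρ : Fin r → 𝓞 K} (hρ : ∀ j, ρ j ≠ 0) {δ : Fin k → K} (hδ : SepF K F E δ) {t : ℕ}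
    {m u : 𝓞 K} (hmu : H F m u) :
    R3_L F r ρ δ t m u (bn k t (c ^ ((2 ^ r - 1) * Module.finrank K F))) (crv a b) := by
  have hρ0 : ∀ J : Finset (Fin r), ((∏ j ∈ J, ρ j : 𝓞 K) : K) ≠ 0 := by
    intro J h
    exact Finset.prod_ne_zero_iff.2 (fun j _ => hρ j) (RingOfIntegers.coe_eq_zero_iff.1 h)
  have hs : ∀ J : Finset (Fin r), J.Nonempty →
      SepF K F E fun i => δ i * ((∏ j ∈ J, ρ j : 𝓞 K) : K) := by
    intro J _
    have h0 : algebraMap K F ((∏ j ∈ J, ρ j : 𝓞 K) : K) ≠ 0 := (map_ne_zero _).2 (hρ0 J)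
    refine ⟨fun i => mul_ne_zero (hδ.1 i) (hρ0 J), fun i i' hii e he => ?_⟩
    rintro ⟨x, hx⟩
    refine hδ.2 i i' hii e he ⟨x / algebraMap K F ((∏ j ∈ J, ρ j : 𝓞 K) : K), ?_⟩
    rw [div_pow, hx, div_eq_iff (pow_ne_zero 2 h0), ← map_pow, ← map_mul]
    refine congrArg _ ?_
    ring
  have h2 := h F hF m u hmu r k (fun i J => δ i * ((∏ j ∈ J, ρ j : 𝓞 K) : K)) hs t
  have e4 : ∀ (i : Fin k) (J : Finset (Fin r)) (d : Fin r → 𝓞 K),
      δ i * ((∏ j ∈ J, (ρ j * d j) : 𝓞 K) : K) =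
        δ i * ((∏ j ∈ J, ρ j : 𝓞 K) : K) * ((∏ j ∈ J, d j : 𝓞 K) : K) := by
    intro i J d
    rw [Finset.prod_mul_distrib, mul_assoc]
    exact congrArg _ (map_mul (algebraMap (𝓞 K) K) _ _)
  unfold R3_L
  simp only [← R3_tw, e4]
  exact h2

open Classical in
/-- **The law for the rank zero twists, for all the curves and the same multiplier for all the `J`.** (As
`dbinKI_of`, `dbinKI_expl` in `MQ/RU14`: `Inv2` of the property of `W` that, if the multipliers are separated with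
respect to `b` whenever `C • W = crv 0 b`, then the law for the twists of `W` by `δ i * ∏ d j` over `F` holds; then
`Inv2.star` and `db4Q`, .., `db7Q`, instead of `SepUI F b Δ` the condition `∀ i ≠ j, ¬ IsSquare (± b δ i δ j)` in
`F`.) -/
theorem stdQ {K : Type} [Field K] [NumberField K]
    (hK : Module.finrank ℚ K = 2) (a b : K) (hE : b * (a ^ 2 - 4 * b) ≠ 0) (j D : ℤ)
    (hjD : (j, D) ∈ Pool.Agent.Lib.MP_1a91b9_ntY.cmList)
    (hj : 256 * (a ^ 2 - 3 * b) ^ 3 = j * (b ^ 2 * (a ^ 2 - 4 * b))) (hD : ∃ s : K, s ^ 2 = D)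
    (l : ℕ) (hl : l = 2 ∨ l = 4 ∧ ∃ i : K, i ^ 2 = -1)
    (F : Type) [Field F] [NumberField F] [Algebra K F]
    (hF : IntermediateField.adjoin K {x : F | ∃ c : K, x ^ l = algebraMap K F c} = ⊤) (r k : ℕ)
    (ρ : Fin r → 𝓞 K) (hρ : ∀ j, ρ j ≠ 0) (δ : Fin k → K) (h0 : ∀ i, δ i ≠ 0)
    (hδ : ∀ i i', i ≠ i' → ∀ e ∈ ({1, -1, b, -b} : Set K), ¬ ∃ x : F, x ^ 2 =
      algebraMap K F (e * (δ i * δ i'))) (t : ℕ)
    (n : ℕ) (m u : 𝓞 K) (hm : m ∣ (2 : 𝓞 K) ^ n)
    (hu : ∀ p : 𝓞 K, Prime p → ¬ (p ^ 2 ∣ m ∧ p ^ 2 ∣ u)) (c : ℝ)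
    (hc : c = if Prime (2 : 𝓞 K) then (if ∃ x : F, x ^ 2 = -1 then
        √((∏' i : ℕ, (1 + 1 / (2 : ℝ) ^ (2 * i + 1))⁻¹) / 2) else
        ∏' i : ℕ, (1 + 1 / (2 : ℝ) ^ (2 * i + 1))⁻¹) else
      if Squarefree (2 : 𝓞 K) then ∏' i : ℕ, (1 - 1 / (2 : ℝ) ^ (i + 1)) else
      ∏' i : ℕ, (1 + 1 / (2 : ℝ) ^ (i + 1))⁻¹) :
    DivGI (𝓞 K) r m u (fun d => Atl t fun i => ∀ J : Finset (Fin r), J.Nonempty →
      RkZ (⟨0, algebraMap K F (δ i * ((∏ j ∈ J, (ρ j * d j) : 𝓞 K) : K) * a), 0,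
        algebraMap K F ((δ i * ((∏ j ∈ J, (ρ j * d j) : 𝓞 K) : K)) ^ 2 * b), 0⟩ : WeierstrassCurve F))
      (bn k t (c ^ ((2 ^ r - 1) * Module.finrank K F))) := by
  have hdisc : (crv a b).Δ ≠ 0 := by
    rw [crv_disc]
    have e : b ^ 2 * (a ^ 2 - 4 * b) = b * (b * (a ^ 2 - 4 * b)) := by ring
    rw [e]
    exact mul_ne_zero (by norm_num) (mul_ne_zero (left_ne_zero_of_mul hE) hE)
  obtain ⟨s, hs⟩ := hD
  have hW : CMK (crv a b) := ⟨hdisc, j, D, s, hjD, hs, hasJ_crv_iff.2 hj⟩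
  have hP : Pt2 (crv a b) := by
    refine ⟨0, ?_⟩
    unfold crv WeierstrassCurve.b₂ WeierstrassCurve.b₄ WeierstrassCurve.b₆
    ring
  have hps : Prime (2 : 𝓞 K) → Squarefree (2 : 𝓞 K) := fun h => h.irreducible.squarefree
  have k1 : R3_S F (1 : K) δ := fun i i' hii =>
    ⟨hδ i i' hii 1 (by simp), hδ i i' hii (-1) (by simp)⟩
  have k2 : R3_S F b δ := fun i i' hii =>
    ⟨hδ i i' hii b (by simp), hδ i i' hii (-b) (by simp)⟩
  have hmu : Cls2 K m u := ⟨⟨n, hm⟩, fun p => hu p⟩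
  have hI : Prime (2 : 𝓞 K) → (¬ ∃ x : F, x ^ 2 = -1) → c = cI := fun h h' => by
    rw [hc, if_pos h, if_neg h']
    rfl
  have hJ : Prime (2 : 𝓞 K) → (∃ x : F, x ^ 2 = -1) → c = cJ := fun h h' => by
    rw [hc, if_pos h, if_pos h']
    rfl
  have hS : ¬ Prime (2 : 𝓞 K) → Squarefree (2 : 𝓞 K) → c = cS := fun h h' => by
    rw [hc, if_neg h, if_pos h']
    rfl
  have hR : ¬ Squarefree (2 : 𝓞 K) → c = cR := fun h => by
    rw [hc, if_neg (mt hps h), if_neg h]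
    rfl
  have h1 : R3_Q F r ρ δ t m u (bn k t (c ^ ((2 ^ r - 1) * Module.finrank K F))) (crv a b) := by
    refine (R3_inv F r ρ k1 t m u _).star hK ?_ ?_ ?_ ?_ hW hP
    · rintro ⟨i, hi⟩ b' hb' h0'
      have k3 : R3_S F b' δ := h0' 1 b' hb' (one_smul _ _)
      obtain ⟨i', -, hi'⟩ := to_int (x := i) (t := 0) (n := 1) (by rw [hi]; push_cast; ring)
      have hi2 : i' ^ 2 = -1 := by rw [hi']; push_cast; ring
      rw [hR (nsf_i hK hi2)]
      rcases hl with rfl | ⟨rfl, -⟩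
      · exact R3_of (R3_two (db4Q hK hi hb')) hF hρ (R3_sep' h0 k1 k3) hmu
      · exact R3_of (db4Q hK hi hb') hF hρ (R3_sep' h0 k1 k3) hmu
    · rintro ⟨s, hs⟩ e he -
      obtain ⟨s', -, hs'⟩ := to_int (x := s) (t := 0) (n := 2) (by rw [hs]; push_cast; ring)
      have hs2 : s' ^ 2 = -2 := by rw [hs']; push_cast; ring
      rw [hR (nsf_s hK hs2)]
      rcases hl with rfl | ⟨-, i, hi⟩
      · exact R3_of (db8Q hK hs he) hF hρ (R3_sep h0 k1) hmu
      · exact (excl1 hK hs hi).elim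
    · rintro ⟨s, hs⟩ e he -
      obtain ⟨w, hw⟩ : ∃ w : K, w = (1 + s) / 2 := ⟨_, rfl⟩
      have hsw : s = 2 * w - 1 := by
        rw [hw, mul_div_cancel₀ _ (two_ne_zero' K)]
        ring
      have hw2 : w ^ 2 = w - 1 := by
        have h4 : (4 : K) ≠ 0 := by norm_num
        have hs2 := hs
        rw [hsw] at hs2
        refine mul_left_cancel₀ h4 ?_
        linear_combination hs2
      obtain ⟨θ', -, hθ'⟩ := to_int (x := w) (t := 1) (n := 1) (by rw [hw2]; push_cast; ring)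
      have hθ2 : θ' ^ 2 = θ' - 1 := by rw [hθ']; push_cast; ring
      rcases hl with rfl | ⟨-, i, hi⟩
      · by_cases hi : ∃ x : F, x ^ 2 = -1
        · rw [hJ (prime_w hK hθ2) hi]
          exact R3_of (db3JQ hK hs he) hF hρ (R3_sep h0 k1) hmu
        · rw [hI (prime_w hK hθ2) hi]
          exact R3_of (db3NQ hK hs he) hF hρ (R3_sep h0 k1) ⟨hmu, hi⟩
      · exact (excl6 hK hi hs).elim
    · rintro ⟨s, hs⟩ e he
      have hs0 : s ≠ 0 := by
        rintro rfl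
        norm_num at hs
      obtain ⟨θ, hθd⟩ : ∃ θ : K, θ = (1 + s) / 2 := ⟨_, rfl⟩
      have hsθ : s = 2 * θ - 1 := by
        rw [hθd, mul_div_cancel₀ _ (two_ne_zero' K)]
        ring
      have hθ : θ ^ 2 = θ - 2 := by
        have hs2 := hs
        rw [hsθ] at hs2
        refine mul_left_cancel₀ (show (4 : K) ≠ 0 by norm_num) ?_
        linear_combination hs2
      obtain ⟨θ', -, hθ'⟩ := to_int (x := θ) (t := 1) (n := 2) (by rw [hθ]; push_cast; ring)
      have hθ2 : θ' ^ 2 = θ' - 2 := by rw [hθ']; push_cast; ring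
      rw [hS (np_t hK hθ2) (sf_t hK (emp_t hθ2) hθ2)]
      rcases hl with rfl | ⟨-, i, hi⟩
      · have h2 : R3_Q F r ρ δ t m u (bn k t (cS ^ ((2 ^ r - 1) * Module.finrank K F)))
            (crv (s * e * (1 + (1 - θ) ^ 4)) ((s * e) ^ 2 * (1 - θ) ^ 4)) := fun _ =>
          R3_of (db7Q hK hθ (d₀ := s * e) (mul_ne_zero hs0 he)) hF hρ (R3_sep h0 k1) hmu
        refine (R3_inv F r ρ k1 t m u _).of_vc h2 (Pool.Agent.Lib.MP_1a91b9_ntV.J.hasJ_crv7 hθ _)
          (C := ⟨1, (θ - 11) * e, 0, 0⟩) ?_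
        exact crv21 hθ hsθ e
      · exact (excl3 hK (th7 hθ) hi).elim
  have h2 := h1 (fun C b' hb' hC => by
    rcases crv_zero_cases hC with ⟨-, z, hz, hbz⟩ | ⟨z, hz⟩
    · exact R3_of_eq k2 hz (Or.inl hbz.symm)
    · have hz0 : z ≠ 0 := by
        rintro rfl
        exact hb' (by rw [hz]; ring)
      refine R3_congr k1 hz0 (Or.inr ?_)
      rw [hz]
      ring)
  unfold R3_L at h2
  simp only [← R3_tw] at h2
  exact h2

end Pool.Agent.Lib.MP_1a91b9_ntRL
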